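import Mathlib

open scoped BigOperators
open Finset

namespace Pool.Agent.Lib.Pec23a5

/-! ### Rademacher systems -/

/-- A finite system of functions behaving like Rademacher functions. -/
structure Rad (I : Type) [Fintype I] [DecidableEq I] where
  R : Type
  fR : Fintype R
  ne : Nonempty R
  r : I → R → ℝ
  orth : ∀ n m, ∑ ρ, r n ρ * r m ρ = if n = m then (Fintype.card R : ℝ) else 0
  four : ∀ c : I → ℝ, ∑ ρ, (∑ n, c n * r n ρ) ^ 4 ≤ 3 * Fintype.card R * (∑ n, c n ^ 2) ^ 2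

attribute [instance] Rad.fR Rad.ne

theorem sum_sq_of_orth {I : Type} [Fintype I] [DecidableEq I] {R : Type} [Fintype R] (r : I → R → ℝ)
    (orth : ∀ n m, ∑ ρ, r n ρ * r m ρ = if n = m then (Fintype.card R : ℝ) else 0) (c : I → ℝ) :
    ∑ ρ, (∑ n, c n * r n ρ) ^ 2 = Fintype.card R * ∑ n, c n ^ 2 := by
  have h1 : ∀ ρ, (∑ n, c n * r n ρ) ^ 2 = ∑ n, ∑ m, c n * c m * (r n ρ * r m ρ) := by
    intro ρ
    rw [sq, Finset.sum_mul_sum]
    refine Finset.sum_congr rfl (fun n _ => Finset.sum_congr rfl (fun m _ => ?_))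
    ring
  simp only [h1]
  rw [Finset.sum_comm]
  have h2 : ∀ n, ∑ ρ, ∑ m, c n * c m * (r n ρ * r m ρ) = Fintype.card R * c n ^ 2 := by
    intro n
    rw [Finset.sum_comm]
    simp only [← Finset.mul_sum, orth, mul_ite, mul_zero, Finset.sum_ite_eq, Finset.mem_univ,
      if_true]
    ring
  simp only [h2, ← Finset.mul_sum]

theorem exists_rad_fin (k : ℕ) : Nonempty (Rad (Fin k)) := by
  induction k with
  | zero =>
    refine ⟨⟨Unit, inferInstance, inferInstance, fun n _ => n.elim0, fun n => n.elim0, ?_⟩⟩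
    intro c
    simp
  | succ k ih =>
    obtain ⟨⟨R, fR, ne, r, orth, four⟩⟩ := ih
    refine ⟨⟨R × Bool, inferInstance, inferInstance,
      fun n ρ => Fin.cases (if ρ.2 then (1 : ℝ) else -1) (fun m => r m ρ.1) n, ?_, ?_⟩⟩
    · intro n m
      rw [Fintype.sum_prod_type, Fintype.card_prod, Fintype.card_bool]
      refine Fin.cases ?_ (fun n => ?_) n
      · refine Fin.cases ?_ (fun m => ?_) m
        · simp
          ring
        · simp [(Fin.succ_ne_zero m).symm]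
      · refine Fin.cases ?_ (fun m => ?_) m
        · simp [Fin.succ_ne_zero]
        · simp only [Fin.cases_succ, Fin.succ_inj, Fintype.sum_bool]
          rw [Finset.sum_add_distrib, orth n m]
          split_ifs
          · push_cast; ring
          · ring
    · intro c
      have hsq := sum_sq_of_orth r orth (fun n => c n.succ)
      rw [Fintype.sum_prod_type, Fintype.card_prod, Fintype.card_bool]
      simp only [Fin.sum_univ_succ, Fin.cases_zero, Fin.cases_succ, Fintype.sum_bool, if_true]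
      have h1 : ∀ ρ, (c 0 * 1 + ∑ n : Fin k, c n.succ * r n ρ) ^ 4 +
          (c 0 * (if false = true then 1 else -1) + ∑ n : Fin k, c n.succ * r n ρ) ^ 4
          = 2 * (∑ n : Fin k, c n.succ * r n ρ) ^ 4
            + 12 * c 0 ^ 2 * (∑ n : Fin k, c n.succ * r n ρ) ^ 2 + 2 * c 0 ^ 4 := by
        intro ρ
        simp
        ring
      simp only [h1]
      rw [Finset.sum_add_distrib, Finset.sum_add_distrib, ← Finset.mul_sum, ← Finset.mul_sum, hsq,
        Finset.sum_const, Finset.card_univ, nsmul_eq_mul]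
      have h2 := four (fun n => c n.succ)
      set A := ∑ n : Fin k, c n.succ ^ 2
      have hA : 0 ≤ A := Finset.sum_nonneg (fun _ _ => sq_nonneg _)
      have hR : (0 : ℝ) ≤ Fintype.card R := Nat.cast_nonneg _
      push_cast
      nlinarith [mul_nonneg hR (sq_nonneg (c 0 ^ 2)), mul_nonneg hR (mul_nonneg (sq_nonneg (c 0)) hA)]

theorem exists_rad (I : Type) [Fintype I] [DecidableEq I] : Nonempty (Rad I) := by
  obtain ⟨⟨R, fR, ne, r, orth, four⟩⟩ := exists_rad_fin (Fintype.card I)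
  let e := Fintype.equivFin I
  refine ⟨⟨R, fR, ne, fun n => r (e n), ?_, ?_⟩⟩
  · intro n m
    rw [orth]
    simp
  · intro c
    have h := four (fun n => c (e.symm n))
    have h1 : ∀ ρ, ∑ n : Fin (Fintype.card I), c (e.symm n) * r n ρ = ∑ n, c n * r (e n) ρ := by
      intro ρ
      rw [← e.sum_comp]
      simp
    have h2 : ∑ n : Fin (Fintype.card I), c (e.symm n) ^ 2 = ∑ n, c n ^ 2 := by
      rw [← e.sum_comp]
      simp
    simp only [h1, h2] at h
    exact h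

variable {I : Type} [Fintype I] [DecidableEq I] (X : Rad I)

theorem Rad.card_pos : (0 : ℝ) < Fintype.card X.R := by
  exact_mod_cast Fintype.card_pos

theorem Rad.sum_sq (c : I → ℝ) :
    ∑ ρ, (∑ n, c n * X.r n ρ) ^ 2 = Fintype.card X.R * ∑ n, c n ^ 2 :=
  sum_sq_of_orth X.r X.orth c

theorem Rad.bessel (F : X.R → ℝ) :
    ∑ n, ((Fintype.card X.R : ℝ)⁻¹ * ∑ ρ, F ρ * X.r n ρ) ^ 2
      ≤ (Fintype.card X.R : ℝ)⁻¹ * ∑ ρ, F ρ ^ 2 := by
  have hR := X.card_pos
  set a : I → ℝ := fun n => (Fintype.card X.R : ℝ)⁻¹ * ∑ ρ, F ρ * X.r n ρ with ha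
  have h1 : ∀ n, ∑ ρ, F ρ * X.r n ρ = Fintype.card X.R * a n := by
    intro n
    rw [ha]
    field_simp
  have h2 : 0 ≤ ∑ ρ, (F ρ - ∑ n, a n * X.r n ρ) ^ 2 := Finset.sum_nonneg (fun _ _ => sq_nonneg _)
  have h3 : ∑ ρ, (F ρ - ∑ n, a n * X.r n ρ) ^ 2
      = ∑ ρ, F ρ ^ 2 - 2 * ∑ ρ, F ρ * (∑ n, a n * X.r n ρ) + ∑ ρ, (∑ n, a n * X.r n ρ) ^ 2 := by
    rw [Finset.mul_sum, ← Finset.sum_sub_distrib, ← Finset.sum_add_distrib]
    refine Finset.sum_congr rfl (fun ρ _ => ?_)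
    ring
  have h4 : ∑ ρ, F ρ * (∑ n, a n * X.r n ρ) = Fintype.card X.R * ∑ n, a n ^ 2 := by
    simp only [Finset.mul_sum]
    rw [Finset.sum_comm]
    refine Finset.sum_congr rfl (fun n _ => ?_)
    have : ∀ ρ, F ρ * (a n * X.r n ρ) = a n * (F ρ * X.r n ρ) := fun ρ => by ring
    simp only [this]
    rw [← Finset.mul_sum, h1]
    ring
  rw [h3, h4, X.sum_sq] at h2
  rw [← div_eq_inv_mul, le_div_iff₀ hR]
  linarith

/-- Upper Khinchine inequality with exponent `4/3`. -/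
theorem Rad.upper (c : I → ℝ) :
    ∑ ρ, |∑ n, c n * X.r n ρ| ^ (4 / 3 : ℝ)
      ≤ Fintype.card X.R * (∑ n, c n ^ 2) ^ (2 / 3 : ℝ) := by
  have hR := X.card_pos
  set Y : X.R → ℝ := fun ρ => ∑ n, c n * X.r n ρ with hY
  -- Jensen
  have h1 := Real.rpow_arith_mean_le_arith_mean_rpow Finset.univ
    (fun _ : X.R => (Fintype.card X.R : ℝ)⁻¹) (fun ρ => |Y ρ| ^ (4 / 3 : ℝ))
    (fun _ _ => by positivity) (by
      rw [Finset.sum_const, Finset.card_univ, nsmul_eq_mul, mul_inv_cancel₀ hR.ne'])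
    (fun _ _ => by positivity) (p := 3 / 2) (by norm_num)
  have h2 : ∀ ρ, (|Y ρ| ^ (4 / 3 : ℝ)) ^ (3 / 2 : ℝ) = (Y ρ) ^ 2 := by
    intro ρ
    rw [← Real.rpow_mul (abs_nonneg _)]
    norm_num
  simp only [h2] at h1
  rw [← Finset.mul_sum, ← Finset.mul_sum, X.sum_sq, inv_mul_cancel_left₀ hR.ne'] at h1
  have h3 := Real.rpow_le_rpow (by positivity) h1 (show (0 : ℝ) ≤ 2 / 3 by norm_num)
  rw [← Real.rpow_mul (by positivity)] at h3
  norm_num at h3
  rwa [inv_mul_le_iff₀ hR] at h3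

/-- Lower Khinchine inequality with exponent `4/3`. -/
theorem Rad.lower (c : I → ℝ) :
    Fintype.card X.R * (∑ n, c n ^ 2) ^ (2 / 3 : ℝ)
      ≤ 2 * ∑ ρ, |∑ n, c n * X.r n ρ| ^ (4 / 3 : ℝ) := by
  have hR := X.card_pos
  set Y : X.R → ℝ := fun ρ => ∑ n, c n * X.r n ρ with hY
  set N : ℝ := (Fintype.card X.R : ℝ) with hN
  set A : ℝ := ∑ n, c n ^ 2 with hA
  have hA0 : 0 ≤ A := Finset.sum_nonneg (fun _ _ => sq_nonneg _)
  set B : ℝ := ∑ ρ, |Y ρ| ^ (4 / 3 : ℝ) with hB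
  have hB0 : 0 ≤ B := Finset.sum_nonneg (fun _ _ => by positivity)
  rcases hA0.eq_or_lt with h0 | hApos
  · rw [← h0, Real.zero_rpow (by norm_num), mul_zero]
    positivity
  have hconj : Real.HolderConjugate (4 / 3) 4 := by
    rw [Real.holderConjugate_iff]
    norm_num
  have h1 := Real.inner_le_Lp_mul_Lq Finset.univ (fun ρ => |Y ρ|) (fun ρ => |Y ρ|) hconj
  simp only [abs_abs] at h1
  have h2 : ∀ ρ, |Y ρ| * |Y ρ| = (Y ρ) ^ 2 := fun ρ => by rw [abs_mul_abs_self]; ring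
  have h3 : ∀ ρ, |Y ρ| ^ (4 : ℝ) = (Y ρ) ^ 4 := by
    intro ρ
    have : (4 : ℝ) = ((4 : ℕ) : ℝ) := by norm_num
    rw [this, Real.rpow_natCast, Even.pow_abs (by decide)]
  simp only [h2, h3] at h1
  rw [X.sum_sq] at h1
  have h4 := X.four c
  have h5 : (∑ ρ, (Y ρ) ^ 4) ^ (1 / 4 : ℝ) ≤ (3 * N * A ^ 2) ^ (1 / 4 : ℝ) :=
    Real.rpow_le_rpow (Finset.sum_nonneg (fun _ _ => by positivity)) h4 (by norm_num)
  have h6 : N * A ≤ B ^ (3 / 4 : ℝ) * (3 * N * A ^ 2) ^ (1 / 4 : ℝ) := by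
    have h7 : (1 : ℝ) / (4 / 3) = 3 / 4 := by norm_num
    rw [h7] at h1
    refine le_trans h1 ?_
    exact mul_le_mul_of_nonneg_left h5 (by positivity)
  -- raise to the power 4
  have h7 : (N * A) ^ 4 ≤ B ^ 3 * (3 * N * A ^ 2) := by
    have h8 := pow_le_pow_left₀ (by positivity) h6 4
    have h9 : (B ^ (3 / 4 : ℝ)) ^ 4 = B ^ 3 := by
      rw [← Real.rpow_natCast, ← Real.rpow_mul hB0]
      norm_num
    have h10 : ((3 * N * A ^ 2) ^ (1 / 4 : ℝ)) ^ 4 = 3 * N * A ^ 2 := by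
      rw [← Real.rpow_natCast, ← Real.rpow_mul (by positivity)]
      norm_num
    calc (N * A) ^ 4 ≤ (B ^ (3 / 4 : ℝ) * (3 * N * A ^ 2) ^ (1 / 4 : ℝ)) ^ 4 := h8
      _ = B ^ 3 * (3 * N * A ^ 2) := by rw [mul_pow, h9, h10]
  -- simplify
  have h8 : N ^ 3 * A ^ 2 ≤ 3 * B ^ 3 := by
    have h9 : (N ^ 3 * A ^ 2) * (N * A ^ 2) ≤ (3 * B ^ 3) * (N * A ^ 2) := by nlinarith
    exact le_of_mul_le_mul_right h9 (by positivity)
  have h9 : (N * A ^ (2 / 3 : ℝ)) ^ 3 ≤ (2 * B) ^ 3 := by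
    rw [mul_pow, mul_pow]
    have h10 : (A ^ (2 / 3 : ℝ)) ^ 3 = A ^ 2 := by
      rw [← Real.rpow_natCast, ← Real.rpow_mul hA0]
      norm_num
    rw [h10]
    nlinarith [pow_nonneg hB0 3]
  exact le_of_pow_le_pow_left₀ (by norm_num) (by positivity) h9


/-! ### Laminar systems -/

/-- A laminar family of nonempty subsets. -/
structure Lam (I Θ : Type) [Fintype I] [Fintype Θ] [DecidableEq I] [DecidableEq Θ] where
  S : I → Finset Θ
  lam : ∀ n m, S n ⊆ S m ∨ S m ⊆ S n ∨ Disjoint (S n) (S m)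
  ne : ∀ n, 0 < (S n).card

section Lam

variable {I Θ : Type} [Fintype I] [Fintype Θ] [DecidableEq I] [DecidableEq Θ] (L : Lam I Θ)

/-- average over `S n` -/
noncomputable def Lam.avg (n : I) (w : Θ → ℝ) : ℝ := ((L.S n).card : ℝ)⁻¹ * ∑ θ ∈ L.S n, w θ

/-- restriction of sums to the sets containing a point -/
def Lam.at (T : Finset I) (θ : Θ) : Finset I := T.filter (fun n => θ ∈ L.S n)

theorem Lam.mem_at (T : Finset I) (θ : Θ) (n : I) : n ∈ L.at T θ ↔ n ∈ T ∧ θ ∈ L.S n := by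
  unfold Lam.at
  rw [Finset.mem_filter]

theorem Lam.sum_at (T : Finset I) (θ : Θ) (a : I → ℝ) :
    ∑ n ∈ L.at T θ, a n = ∑ n ∈ T, if θ ∈ L.S n then a n else 0 := by
  unfold Lam.at
  rw [Finset.sum_filter]

theorem Lam.avg_nonneg (n : I) (w : Θ → ℝ) (hw : ∀ θ, 0 ≤ w θ) : 0 ≤ L.avg n w := by
  unfold Lam.avg
  exact mul_nonneg (by positivity) (Finset.sum_nonneg (fun _ _ => hw _))

theorem Lam.card_mul_avg (n : I) (w : Θ → ℝ) :
    ((L.S n).card : ℝ) * L.avg n w = ∑ θ ∈ L.S n, w θ := by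
  have h : ((L.S n).card : ℝ) ≠ 0 := by exact_mod_cast (L.ne n).ne'
  unfold Lam.avg
  field_simp

/-- Dual Doob inequality. -/
theorem Lam.doob (T : Finset I) (w : I → Θ → ℝ) (hw : ∀ n θ, 0 ≤ w n θ) :
    ∑ θ, (∑ n ∈ L.at T θ, L.avg n (w n)) ^ 2 ≤ 4 * ∑ θ, (∑ n ∈ L.at T θ, w n θ) ^ 2 := by
  set a : I → ℝ := fun n => L.avg n (w n) with ha
  have ha0 : ∀ n, 0 ≤ a n := fun n => L.avg_nonneg n _ (hw n)
  set U : Θ → ℝ := fun θ => ∑ n ∈ L.at T θ, a n with hU
  set W : Θ → ℝ := fun θ => ∑ n ∈ L.at T θ, w n θ with hW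
  have hU0 : ∀ θ, 0 ≤ U θ := fun θ => Finset.sum_nonneg (fun _ _ => ha0 _)
  -- the key estimate
  have key : ∑ θ, U θ ^ 2 ≤ 2 * ∑ θ, W θ * U θ := by
    have e1 : ∀ θ, U θ ^ 2 = ∑ m ∈ T, ∑ n ∈ T,
        (if θ ∈ L.S m then a m else 0) * (if θ ∈ L.S n then a n else 0) := by
      intro θ
      rw [sq]
      simp only [hU, L.sum_at]
      rw [Finset.sum_mul_sum]
    have e2 : ∀ θ m n, (if θ ∈ L.S m then a m else 0) * (if θ ∈ L.S n then a n else 0)
        ≤ (if L.S m ⊆ L.S n ∧ θ ∈ L.S m then a m * a n else 0)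
          + (if L.S n ⊆ L.S m ∧ θ ∈ L.S n then a n * a m else 0) := by
      intro θ m n
      have hmn : 0 ≤ a m * a n := mul_nonneg (ha0 m) (ha0 n)
      have hnm : 0 ≤ a n * a m := mul_nonneg (ha0 n) (ha0 m)
      by_cases hm : θ ∈ L.S m
      · by_cases hn : θ ∈ L.S n
        · rw [if_pos hm, if_pos hn]
          rcases L.lam m n with h | h | h
          · rw [if_pos ⟨h, hm⟩]
            split_ifs <;> linarith
          · rw [if_pos (show L.S n ⊆ L.S m ∧ θ ∈ L.S n from ⟨h, hn⟩), mul_comm (a m)]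
            split_ifs <;> linarith
          · exact absurd hn (Finset.disjoint_left.mp h hm)
        · rw [if_neg hn, mul_zero]
          split_ifs <;> positivity
      · rw [if_neg hm, zero_mul]
        split_ifs <;> positivity
    have e3 : ∑ θ, U θ ^ 2 ≤ 2 * ∑ θ, ∑ m ∈ T, ∑ n ∈ T,
        (if L.S m ⊆ L.S n ∧ θ ∈ L.S m then a m * a n else 0) := by
      rw [Finset.mul_sum]
      apply Finset.sum_le_sum
      intro θ _
      rw [e1]
      have e4 : ∑ m ∈ T, ∑ n ∈ T, (if L.S n ⊆ L.S m ∧ θ ∈ L.S n then a n * a m else 0)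
          = ∑ m ∈ T, ∑ n ∈ T, (if L.S m ⊆ L.S n ∧ θ ∈ L.S m then a m * a n else 0) :=
        Finset.sum_comm
      calc ∑ m ∈ T, ∑ n ∈ T, (if θ ∈ L.S m then a m else 0) * (if θ ∈ L.S n then a n else 0)
          ≤ ∑ m ∈ T, ∑ n ∈ T, ((if L.S m ⊆ L.S n ∧ θ ∈ L.S m then a m * a n else 0)
          + (if L.S n ⊆ L.S m ∧ θ ∈ L.S n then a n * a m else 0)) :=
            Finset.sum_le_sum (fun m _ => Finset.sum_le_sum (fun n _ => e2 θ m n))
        _ = 2 * ∑ m ∈ T, ∑ n ∈ T, (if L.S m ⊆ L.S n ∧ θ ∈ L.S m then a m * a n else 0) := by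
            simp only [Finset.sum_add_distrib]
            rw [e4]
            ring
    refine le_trans e3 ?_
    apply mul_le_mul_of_nonneg_left _ (by norm_num)
    -- sum over `θ` first
    have e5 : ∑ θ, ∑ m ∈ T, ∑ n ∈ T, (if L.S m ⊆ L.S n ∧ θ ∈ L.S m then a m * a n else 0)
        = ∑ m ∈ T, ∑ θ ∈ L.S m, w m θ * ∑ n ∈ T, (if L.S m ⊆ L.S n then a n else 0) := by
      rw [Finset.sum_comm]
      apply Finset.sum_congr rfl
      intro m _
      have e6 : ∀ θ, ∑ n ∈ T, (if L.S m ⊆ L.S n ∧ θ ∈ L.S m then a m * a n else 0)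
          = if θ ∈ L.S m then a m * ∑ n ∈ T, (if L.S m ⊆ L.S n then a n else 0) else 0 := by
        intro θ
        by_cases h : θ ∈ L.S m
        · simp only [h, and_true, if_true, Finset.mul_sum, mul_ite, mul_zero]
        · simp [h]
      simp only [e6]
      rw [Finset.sum_ite_mem, Finset.univ_inter, Finset.sum_const, nsmul_eq_mul, ← mul_assoc,
        L.card_mul_avg, Finset.sum_mul]
    rw [e5]
    have e7 : ∀ m ∈ T, ∀ θ ∈ L.S m, w m θ * ∑ n ∈ T, (if L.S m ⊆ L.S n then a n else 0)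
        ≤ w m θ * U θ := by
      intro m _ θ hθ
      apply mul_le_mul_of_nonneg_left _ (hw m θ)
      simp only [hU, L.sum_at]
      apply Finset.sum_le_sum
      intro n _
      by_cases h : L.S m ⊆ L.S n
      · rw [if_pos h, if_pos (h hθ)]
      · rw [if_neg h]
        split_ifs
        · exact ha0 n
        · exact le_rfl
    refine le_trans (Finset.sum_le_sum (fun m hm => Finset.sum_le_sum (fun θ hθ => e7 m hm θ hθ))) ?_
    apply le_of_eq
    simp only [hW, L.sum_at, Finset.sum_mul]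
    symm
    rw [Finset.sum_comm]
    apply Finset.sum_congr rfl
    intro m _
    simp only [ite_mul, zero_mul]
    rw [Finset.sum_ite_mem, Finset.univ_inter]
  have h2 : ∑ θ, W θ * U θ ≤ ∑ θ, (W θ ^ 2 + U θ ^ 2 / 4) := by
    apply Finset.sum_le_sum
    intro θ _
    nlinarith [sq_nonneg (W θ - U θ / 2)]
  rw [Finset.sum_add_distrib, ← Finset.sum_div] at h2
  linarith

end Lam

/-! ### The projections -/

section Proj

variable {I Θ : Type} [Fintype I] [Fintype Θ] [DecidableEq I] [DecidableEq Θ]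
  (X : Rad I) (L : Lam I Θ)

/-- coefficients -/
noncomputable def bc (n : I) (F : Θ × X.R → ℝ) : ℝ :=
  L.avg n (fun θ => (Fintype.card X.R : ℝ)⁻¹ * ∑ ρ, F (θ, ρ) * X.r n ρ)

/-- synthesis -/
noncomputable def syn (T : Finset I) (b : I → ℝ) (τ : Θ × X.R) : ℝ :=
  ∑ n ∈ L.at T τ.1, b n * X.r n τ.2

/-- square functions (squared) -/
noncomputable def vsq (T : Finset I) (b : I → ℝ) (θ : Θ) : ℝ := ∑ n ∈ L.at T θ, b n ^ 2

theorem vsq_nonneg (T : Finset I) (b : I → ℝ) (θ : Θ) : 0 ≤ vsq L T b θ :=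
  Finset.sum_nonneg (fun _ _ => sq_nonneg _)

theorem sum_eq_univ (s : Finset I) (b g : I → ℝ) :
    ∑ n ∈ s, b n * g n = ∑ n, (if n ∈ s then b n else 0) * g n := by
  simp only [ite_mul, zero_mul]
  rw [Finset.sum_ite_mem, Finset.univ_inter]

theorem sum_sq_eq_univ (s : Finset I) (b : I → ℝ) :
    ∑ n ∈ s, b n ^ 2 = ∑ n, (if n ∈ s then b n else 0) ^ 2 := by
  have : ∀ n, (if n ∈ s then b n else 0) ^ 2 = if n ∈ s then b n ^ 2 else 0 := by
    intro n
    split_ifs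
    · rfl
    · norm_num
  simp only [this]
  rw [Finset.sum_ite_mem, Finset.univ_inter]

theorem syn_eq (T : Finset I) (b : I → ℝ) (θ : Θ) (ρ : X.R) :
    syn X L T b (θ, ρ) = ∑ n, (if n ∈ L.at T θ then b n else 0) * X.r n ρ :=
  sum_eq_univ _ _ _

theorem vsq_eq (T : Finset I) (b : I → ℝ) (θ : Θ) :
    vsq L T b θ = ∑ n, (if n ∈ L.at T θ then b n else 0) ^ 2 :=
  sum_sq_eq_univ _ _

theorem syn_four (T : Finset I) (b : I → ℝ) :
    ∑ τ, syn X L T b τ ^ 4 ≤ 3 * Fintype.card X.R * ∑ θ, vsq L T b θ ^ 2 := by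
  rw [Fintype.sum_prod_type, Finset.mul_sum]
  apply Finset.sum_le_sum
  intro θ _
  rw [vsq_eq]
  simp only [syn_eq]
  exact X.four (fun n => if n ∈ L.at T θ then b n else 0)

theorem syn_upper (T : Finset I) (b : I → ℝ) :
    ∑ τ, |syn X L T b τ| ^ (4 / 3 : ℝ)
      ≤ Fintype.card X.R * ∑ θ, vsq L T b θ ^ (2 / 3 : ℝ) := by
  rw [Fintype.sum_prod_type, Finset.mul_sum]
  apply Finset.sum_le_sum
  intro θ _
  rw [vsq_eq]
  simp only [syn_eq]
  exact X.upper (fun n => if n ∈ L.at T θ then b n else 0)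

theorem syn_lower (T : Finset I) (b : I → ℝ) :
    Fintype.card X.R * ∑ θ, vsq L T b θ ^ (2 / 3 : ℝ)
      ≤ 2 * ∑ τ, |syn X L T b τ| ^ (4 / 3 : ℝ) := by
  rw [Fintype.sum_prod_type, Finset.mul_sum, Finset.mul_sum]
  apply Finset.sum_le_sum
  intro θ _
  rw [vsq_eq]
  simp only [syn_eq]
  exact X.lower (fun n => if n ∈ L.at T θ then b n else 0)

theorem avg_sq_le (n : I) (w : Θ → ℝ) : (L.avg n w) ^ 2 ≤ L.avg n (fun θ => w θ ^ 2) := by
  have hc : (0 : ℝ) < (L.S n).card := by exact_mod_cast L.ne n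
  have h1 : (∑ θ ∈ L.S n, w θ) ^ 2 ≤ (L.S n).card * ∑ θ ∈ L.S n, w θ ^ 2 :=
    sq_sum_le_card_mul_sum_sq
  unfold Lam.avg
  rw [mul_pow]
  calc ((L.S n).card : ℝ)⁻¹ ^ 2 * (∑ θ ∈ L.S n, w θ) ^ 2
      ≤ ((L.S n).card : ℝ)⁻¹ ^ 2 * ((L.S n).card * ∑ θ ∈ L.S n, w θ ^ 2) :=
        mul_le_mul_of_nonneg_left h1 (by positivity)
    _ = ((L.S n).card : ℝ)⁻¹ * ∑ θ ∈ L.S n, w θ ^ 2 := by field_simp

theorem proj_four (T : Finset I) (F : Θ × X.R → ℝ) :
    ∑ τ, syn X L T (fun n => bc X L n F) τ ^ 4 ≤ 12 * ∑ τ, F τ ^ 4 := by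
  have hR := X.card_pos
  refine le_trans (syn_four X L T _) ?_
  set N : ℝ := (Fintype.card X.R : ℝ) with hN
  set w : I → Θ → ℝ := fun n θ => (N⁻¹ * ∑ ρ, F (θ, ρ) * X.r n ρ) ^ 2 with hw
  have h1 : ∀ θ, vsq L T (fun n => bc X L n F) θ ≤ ∑ n ∈ L.at T θ, L.avg n (w n) := by
    intro θ
    exact Finset.sum_le_sum (fun n _ => avg_sq_le L n _)
  have h2 : ∑ θ, vsq L T (fun n => bc X L n F) θ ^ 2
      ≤ 4 * ∑ θ, (∑ n ∈ L.at T θ, w n θ) ^ 2 := by
    refine le_trans (Finset.sum_le_sum (fun θ _ => ?_)) (L.doob T w (fun n θ => sq_nonneg _))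
    exact pow_le_pow_left₀ (vsq_nonneg L T _ θ) (h1 θ) 2
  have h3 : ∀ θ, ∑ n ∈ L.at T θ, w n θ ≤ N⁻¹ * ∑ ρ, F (θ, ρ) ^ 2 := by
    intro θ
    refine le_trans ?_ (X.bessel (fun ρ => F (θ, ρ)))
    exact Finset.sum_le_univ_sum_of_nonneg (fun n => sq_nonneg _)
  have h4 : ∀ θ, (∑ n ∈ L.at T θ, w n θ) ^ 2 ≤ N⁻¹ * ∑ ρ, F (θ, ρ) ^ 4 := by
    intro θ
    have h5 : 0 ≤ ∑ n ∈ L.at T θ, w n θ := Finset.sum_nonneg (fun _ _ => sq_nonneg _)
    refine le_trans (pow_le_pow_left₀ h5 (h3 θ) 2) ?_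
    have h6 : (∑ ρ, F (θ, ρ) ^ 2) ^ 2 ≤ N * ∑ ρ, (F (θ, ρ) ^ 2) ^ 2 := by
      have := sq_sum_le_card_mul_sum_sq (s := (Finset.univ : Finset X.R))
        (f := fun ρ => F (θ, ρ) ^ 2)
      rwa [Finset.card_univ] at this
    have h7 : ∀ ρ, (F (θ, ρ) ^ 2) ^ 2 = F (θ, ρ) ^ 4 := fun ρ => by ring
    simp only [h7] at h6
    rw [mul_pow]
    calc N⁻¹ ^ 2 * (∑ ρ, F (θ, ρ) ^ 2) ^ 2 ≤ N⁻¹ ^ 2 * (N * ∑ ρ, F (θ, ρ) ^ 4) :=
          mul_le_mul_of_nonneg_left h6 (by positivity)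
      _ = N⁻¹ * ∑ ρ, F (θ, ρ) ^ 4 := by field_simp
  have h5 : ∑ θ, (∑ n ∈ L.at T θ, w n θ) ^ 2 ≤ N⁻¹ * ∑ τ, F τ ^ 4 := by
    rw [Fintype.sum_prod_type, Finset.mul_sum]
    exact Finset.sum_le_sum (fun θ _ => h4 θ)
  calc 3 * N * ∑ θ, vsq L T (fun n => bc X L n F) θ ^ 2
      ≤ 3 * N * (4 * (N⁻¹ * ∑ τ, F τ ^ 4)) := by
        apply mul_le_mul_of_nonneg_left _ (by positivity)
        linarith
    _ = 12 * ∑ τ, F τ ^ 4 := by field_simp; ring

/-- integrals against Rademacher functions over `S n` -/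
noncomputable def mom (n : I) (F : Θ × X.R → ℝ) : ℝ := ∑ θ ∈ L.S n, ∑ ρ, F (θ, ρ) * X.r n ρ

theorem bc_eq (n : I) (F : Θ × X.R → ℝ) :
    bc X L n F = (((L.S n).card : ℝ)⁻¹ * (Fintype.card X.R : ℝ)⁻¹) * mom X L n F := by
  unfold bc mom Lam.avg
  rw [← Finset.mul_sum]
  ring

theorem sum_syn_mul (T : Finset I) (b : I → ℝ) (G : Θ × X.R → ℝ) :
    ∑ τ, syn X L T b τ * G τ = ∑ n ∈ T, b n * mom X L n G := by
  rw [Fintype.sum_prod_type]
  unfold syn mom
  have h1 : ∀ θ, ∑ ρ, (∑ n ∈ L.at T θ, b n * X.r n ρ) * G (θ, ρ)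
      = ∑ n ∈ T, if θ ∈ L.S n then b n * ∑ ρ, G (θ, ρ) * X.r n ρ else 0 := by
    intro θ
    rw [← L.sum_at T θ (fun n => b n * ∑ ρ, G (θ, ρ) * X.r n ρ)]
    simp only [Finset.sum_mul]
    rw [Finset.sum_comm]
    apply Finset.sum_congr rfl
    intro n _
    rw [Finset.mul_sum]
    apply Finset.sum_congr rfl
    intro ρ _
    ring
  simp only [h1]
  rw [Finset.sum_comm]
  apply Finset.sum_congr rfl
  intro n _
  rw [Finset.sum_ite_mem, Finset.univ_inter, Finset.mul_sum]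

theorem proj_symm (T : Finset I) (F G : Θ × X.R → ℝ) :
    ∑ τ, syn X L T (fun n => bc X L n F) τ * G τ
      = ∑ τ, F τ * syn X L T (fun n => bc X L n G) τ := by
  rw [sum_syn_mul]
  have h : ∑ τ, F τ * syn X L T (fun n => bc X L n G) τ
      = ∑ τ, syn X L T (fun n => bc X L n G) τ * F τ :=
    Finset.sum_congr rfl (fun _ _ => mul_comm _ _)
  rw [h, sum_syn_mul]
  apply Finset.sum_congr rfl
  intro n _
  rw [bc_eq, bc_eq]
  ring

theorem proj_43 (T : Finset I) (F : Θ × X.R → ℝ) :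
    ∑ τ, |syn X L T (fun n => bc X L n F) τ| ^ (4 / 3 : ℝ) ≤ 3 * ∑ τ, |F τ| ^ (4 / 3 : ℝ) := by
  set Y : Θ × X.R → ℝ := syn X L T (fun n => bc X L n F) with hY
  set A : ℝ := ∑ τ, |Y τ| ^ (4 / 3 : ℝ) with hA
  set B : ℝ := ∑ τ, |F τ| ^ (4 / 3 : ℝ) with hB
  have hA0 : 0 ≤ A := Finset.sum_nonneg (fun _ _ => by positivity)
  have hB0 : 0 ≤ B := Finset.sum_nonneg (fun _ _ => by positivity)
  -- the dual function
  set g : Θ × X.R → ℝ := fun τ => SignType.sign (Y τ) * |Y τ| ^ (1 / 3 : ℝ) with hg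
  have hg4 : ∀ τ, g τ ^ 4 ≤ |Y τ| ^ (4 / 3 : ℝ) := by
    intro τ
    have h1 : (|Y τ| ^ (1 / 3 : ℝ)) ^ 4 = |Y τ| ^ (4 / 3 : ℝ) := by
      rw [← Real.rpow_natCast, ← Real.rpow_mul (abs_nonneg _)]
      norm_num
    rw [hg]
    simp only
    rw [mul_pow, h1]
    have h2 : ((SignType.sign (Y τ) : ℝ)) ^ 4 ≤ 1 := by
      rcases lt_trichotomy (Y τ) 0 with h | h | h
      · rw [sign_neg h]; norm_num
      · rw [h, sign_zero]; norm_num
      · rw [sign_pos h]; norm_num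
    exact mul_le_of_le_one_left (by positivity) h2
  have hYg : ∀ τ, Y τ * g τ = |Y τ| ^ (4 / 3 : ℝ) := by
    intro τ
    have h1 : Y τ * (SignType.sign (Y τ) : ℝ) = |Y τ| := by
      rw [mul_comm]
      exact sign_mul_self (Y τ)
    calc Y τ * g τ = (Y τ * (SignType.sign (Y τ) : ℝ)) * |Y τ| ^ (1 / 3 : ℝ) := by
          rw [hg]; ring
      _ = |Y τ| ^ (1 : ℝ) * |Y τ| ^ (1 / 3 : ℝ) := by rw [h1, Real.rpow_one]
      _ = |Y τ| ^ (4 / 3 : ℝ) := by
          rcases (abs_nonneg (Y τ)).eq_or_lt with h | h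
          · rw [← h, Real.zero_rpow (by norm_num), zero_mul, Real.zero_rpow (by norm_num)]
          · rw [← Real.rpow_add h]; norm_num
  have h1 : A = ∑ τ, F τ * syn X L T (fun n => bc X L n g) τ := by
    rw [← proj_symm, hA]
    exact Finset.sum_congr rfl (fun τ _ => (hYg τ).symm)
  have hconj : Real.HolderConjugate (4 / 3) 4 := by
    rw [Real.holderConjugate_iff]
    norm_num
  have h2 := Real.inner_le_Lp_mul_Lq Finset.univ (fun τ => F τ)
    (fun τ => syn X L T (fun n => bc X L n g) τ) hconj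
  rw [← h1] at h2
  have h3 : ∀ τ, |syn X L T (fun n => bc X L n g) τ| ^ (4 : ℝ)
      = syn X L T (fun n => bc X L n g) τ ^ 4 := by
    intro τ
    have : (4 : ℝ) = ((4 : ℕ) : ℝ) := by norm_num
    rw [this, Real.rpow_natCast, Even.pow_abs (by decide)]
  simp only [h3] at h2
  have h4 : ∑ τ, syn X L T (fun n => bc X L n g) τ ^ 4 ≤ 12 * A := by
    refine le_trans (proj_four X L T g) ?_
    apply mul_le_mul_of_nonneg_left _ (by norm_num)
    exact Finset.sum_le_sum (fun τ _ => hg4 τ)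
  have h5 : A ≤ B ^ (3 / 4 : ℝ) * (12 * A) ^ (1 / 4 : ℝ) := by
    have h7 : (1 : ℝ) / (4 / 3) = 3 / 4 := by norm_num
    rw [h7] at h2
    refine le_trans h2 ?_
    apply mul_le_mul_of_nonneg_left _ (by positivity)
    exact Real.rpow_le_rpow (Finset.sum_nonneg (fun _ _ => by positivity)) h4 (by norm_num)
  rcases hA0.eq_or_lt with h0 | hApos
  · rw [← h0]; positivity
  have h6 : A ^ 4 ≤ B ^ 3 * (12 * A) := by
    have h8 := pow_le_pow_left₀ hA0 h5 4
    have h9 : (B ^ (3 / 4 : ℝ)) ^ 4 = B ^ 3 := by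
      rw [← Real.rpow_natCast, ← Real.rpow_mul hB0]
      norm_num
    have h10 : ((12 * A) ^ (1 / 4 : ℝ)) ^ 4 = 12 * A := by
      rw [← Real.rpow_natCast, ← Real.rpow_mul (by positivity)]
      norm_num
    calc A ^ 4 ≤ (B ^ (3 / 4 : ℝ) * (12 * A) ^ (1 / 4 : ℝ)) ^ 4 := h8
      _ = B ^ 3 * (12 * A) := by rw [mul_pow, h9, h10]
  have h7 : A ^ 3 ≤ (3 * B) ^ 3 := by
    have h8 : A ^ 3 * A ≤ (12 * B ^ 3) * A := by nlinarith
    have h9 := le_of_mul_le_mul_right h8 hApos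
    have h10 : 0 ≤ B ^ 3 := by positivity
    rw [mul_pow]
    linarith
  exact le_of_pow_le_pow_left₀ (by norm_num) (by positivity) h7

/-- The key estimate for coefficients. -/
theorem coef_43 (T : Finset I) (F : Θ × X.R → ℝ) :
    Fintype.card X.R * ∑ θ, vsq L T (fun n => bc X L n F) θ ^ (2 / 3 : ℝ)
      ≤ 6 * ∑ τ, |F τ| ^ (4 / 3 : ℝ) := by
  refine le_trans (syn_lower X L T _) ?_
  have := proj_43 X L T F
  linarith

end Proj

/-! ### The block -/

/-- Pointwise comparison of sums on well separated scales. -/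
theorem flats (K : ℕ) (v T h : Fin K → ℝ) (hv0 : ∀ i, 0 ≤ v i) (hvT : ∀ i, v i ≤ T i)
    (hvh : ∀ i, v i = 0 ∨ h i ≤ v i)
    (hsep : ∀ i, ∑ j, (if j < i then T j else 0) ≤ h i) :
    (∑ i, v i) ^ 2 ≤ 4 * ∑ i, v i ^ 2 := by
  induction K with
  | zero => simp
  | succ K ih =>
    rw [Fin.sum_univ_castSucc, Fin.sum_univ_castSucc]
    have ih' := ih (fun i => v i.castSucc) (fun i => T i.castSucc) (fun i => h i.castSucc)
      (fun i => hv0 _) (fun i => hvT _) (fun i => hvh _) (fun i => by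
        have h1 := hsep i.castSucc
        rw [Fin.sum_univ_castSucc] at h1
        have h2 : ¬ (Fin.last K < i.castSucc) := not_lt.mpr (Fin.castSucc_lt_last i).le
        simpa [h2] using h1)
    rcases hvh (Fin.last K) with h0 | h0
    · rw [h0]
      simpa using ih'
    · have h1 := hsep (Fin.last K)
      rw [Fin.sum_univ_castSucc] at h1
      simp only [Fin.castSucc_lt_last, if_true, lt_irrefl, if_false, add_zero] at h1
      have h2 : ∑ i : Fin K, v i.castSucc ≤ v (Fin.last K) :=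
        le_trans (Finset.sum_le_sum (fun i _ => hvT _)) (le_trans h1 h0)
      have h3 : 0 ≤ ∑ i : Fin K, v i.castSucc := Finset.sum_nonneg (fun i _ => hv0 _)
      have h4 : 0 ≤ ∑ i : Fin K, v i.castSucc ^ 2 := Finset.sum_nonneg (fun i _ => sq_nonneg _)
      have h5 := hv0 (Fin.last K)
      nlinarith

theorem sum_rpow_43_le {ι : Type*} (s : Finset ι) (x : ι → ℝ) (hx : ∀ i, 0 ≤ x i) :
    ∑ i ∈ s, x i ^ (4 / 3 : ℝ) ≤ (∑ i ∈ s, x i) ^ (4 / 3 : ℝ) := by
  set A := ∑ i ∈ s, x i with hA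
  have hA0 : 0 ≤ A := Finset.sum_nonneg (fun i _ => hx i)
  have key : ∀ y : ℝ, 0 ≤ y → y ^ (4 / 3 : ℝ) = y * y ^ (1 / 3 : ℝ) := by
    intro y hy
    rcases hy.eq_or_lt with h | h
    · rw [← h, Real.zero_rpow (by norm_num), zero_mul]
    · conv_rhs => rw [← Real.rpow_one y]
      rw [← Real.rpow_mul h.le, ← Real.rpow_add h]
      norm_num
  rw [key A hA0]
  calc ∑ i ∈ s, x i ^ (4 / 3 : ℝ) = ∑ i ∈ s, x i * x i ^ (1 / 3 : ℝ) :=
        Finset.sum_congr rfl (fun i _ => key _ (hx i))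
    _ ≤ ∑ i ∈ s, x i * A ^ (1 / 3 : ℝ) := by
        apply Finset.sum_le_sum
        intro i hi
        apply mul_le_mul_of_nonneg_left _ (hx i)
        exact Real.rpow_le_rpow (hx i) (Finset.single_le_sum (fun j _ => hx j) hi) (by norm_num)
    _ = A * A ^ (1 / 3 : ℝ) := by rw [← Finset.sum_mul]

/-- The flat comparison on exponent `4/3`. -/
theorem flats43 (K : ℕ) (B T h : Fin K → ℝ) (hB0 : ∀ i, 0 ≤ B i) (hT : ∀ i, 0 ≤ T i)
    (hBT : ∀ i, B i ≤ T i ^ 2)
    (hBh : ∀ i, B i = 0 ∨ h i ^ 2 ≤ B i)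
    (hsep : ∀ i, ∑ j, (if j < i then T j else 0) ≤ h i) :
    ∑ i, B i ^ (2 / 3 : ℝ) ≤ (4 * ∑ i, B i) ^ (2 / 3 : ℝ) := by
  have h1 := flats K (fun i => √(B i)) T h (fun i => Real.sqrt_nonneg _)
    (fun i => by
      rw [Real.sqrt_le_left (hT i)]; exact hBT i)
    (fun i => by
      rcases hBh i with h0 | h0
      · left; rw [h0, Real.sqrt_zero]
      · right; exact Real.le_sqrt_of_sq_le h0) hsep
  have h2 : ∀ i, √(B i) ^ 2 = B i := fun i => Real.sq_sqrt (hB0 i)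
  simp only [h2] at h1
  have h3 : ∀ i, B i ^ (2 / 3 : ℝ) = √(B i) ^ (4 / 3 : ℝ) := by
    intro i
    rw [Real.sqrt_eq_rpow, ← Real.rpow_mul (hB0 i)]
    norm_num
  simp only [h3]
  refine le_trans (sum_rpow_43_le _ _ (fun i => Real.sqrt_nonneg _)) ?_
  have h4 : 0 ≤ ∑ i, √(B i) := Finset.sum_nonneg (fun i _ => Real.sqrt_nonneg _)
  have h5 : (∑ i, √(B i)) ^ (4 / 3 : ℝ) = ((∑ i, √(B i)) ^ 2) ^ (2 / 3 : ℝ) := by
    rw [← Real.rpow_natCast, ← Real.rpow_mul h4]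
    norm_num
  rw [h5]
  exact Real.rpow_le_rpow (sq_nonneg _) h1 (by norm_num)

/-- Multi-scale laminar data. -/
structure SData (K : ℕ) (I Θ : Type) [Fintype I] [Fintype Θ] [DecidableEq I] [DecidableEq Θ]
    extends Lam I Θ where
  sc : I → Fin K
  q : Fin K → ℝ
  Q : ℝ
  m : Fin K → ℕ
  q_pos : ∀ i, 0 < q i
  Q_pos : 0 < Q
  card_S : ∀ n, q (sc n) ^ 4 * (S n).card = Fintype.card Θ
  mult : ∀ i θ, (Finset.univ.filter (fun n => sc n = i ∧ θ ∈ S n)).card = m i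
  m_eq : ∀ i, (m i : ℝ) * q i ^ 2 = Q ^ 2
  sep : ∀ i, ∑ j, (if j < i then Q * q j ^ 2 else 0) ≤ q i ^ 3

section Block

variable {K : ℕ} {I Θ : Type} [Fintype I] [Fintype Θ] [DecidableEq I] [DecidableEq Θ]
  (X : Rad I) (D : SData K I Θ)

/-- coordinates of the block -/
abbrev SData.G (X : Rad I) (_ : SData K I Θ) : Type := Option (Fin K) × (Θ × X.R)

/-- indices of one scale -/
def SData.T (i : Fin K) : Finset I := Finset.univ.filter (fun n => D.sc n = i)

theorem SData.mem_T (i : Fin K) (n : I) : n ∈ D.T i ↔ D.sc n = i := by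
  unfold SData.T
  simp

/-- height -/
noncomputable def SData.h (n : I) : ℝ := D.q (D.sc n) ^ 3

theorem SData.h_pos (n : I) : 0 < D.h n := pow_pos (D.q_pos _) 3

/-- the square functions of indicator functions are flat -/
theorem SData.vsq_flat (B : Finset I) (i : Fin K) (θ : Θ) :
    (vsq D.toLam (D.T i) (fun n => D.h n * if n ∈ B then 1 else 0) θ = 0 ∨
      (D.q i ^ 3) ^ 2 ≤ vsq D.toLam (D.T i) (fun n => D.h n * if n ∈ B then 1 else 0) θ) ∧
    vsq D.toLam (D.T i) (fun n => D.h n * if n ∈ B then 1 else 0) θ ≤ (D.Q * D.q i ^ 2) ^ 2 := by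
  have hq := D.q_pos i
  have h1 : vsq D.toLam (D.T i) (fun n => D.h n * if n ∈ B then 1 else 0) θ
      = ((D.toLam.at (D.T i) θ).filter (fun n => n ∈ B)).card * (D.q i ^ 3) ^ 2 := by
    unfold vsq
    rw [← nsmul_eq_mul, ← Finset.sum_const, Finset.sum_filter]
    apply Finset.sum_congr rfl
    intro n hn
    rw [Lam.mem_at, SData.mem_T] at hn
    simp only [SData.h, hn.1]
    split_ifs <;> simp
  constructor
  · rw [h1]
    rcases Nat.eq_zero_or_pos ((D.toLam.at (D.T i) θ).filter (fun n => n ∈ B)).card with h | h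
    · left; rw [h]; simp
    · right
      have h2 : (1 : ℝ) ≤ ((D.toLam.at (D.T i) θ).filter (fun n => n ∈ B)).card := by
        exact_mod_cast h
      nlinarith [pow_pos (pow_pos hq 3) 2]
  · rw [h1]
    have h2 : ((D.toLam.at (D.T i) θ).filter (fun n => n ∈ B)).card ≤ D.m i := by
      rw [← D.mult i θ]
      apply Finset.card_le_card
      intro n hn
      rw [Finset.mem_filter, Lam.mem_at, SData.mem_T] at hn
      rw [Finset.mem_filter]
      exact ⟨Finset.mem_univ _, hn.1.1, hn.1.2⟩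
    have h3 : (((D.toLam.at (D.T i) θ).filter (fun n => n ∈ B)).card : ℝ) ≤ D.m i := by
      exact_mod_cast h2
    calc (((D.toLam.at (D.T i) θ).filter (fun n => n ∈ B)).card : ℝ) * (D.q i ^ 3) ^ 2
        ≤ D.m i * (D.q i ^ 3) ^ 2 := mul_le_mul_of_nonneg_right h3 (by positivity)
      _ = (D.m i * D.q i ^ 2) * D.q i ^ 4 := by ring
      _ = (D.Q * D.q i ^ 2) ^ 2 := by rw [D.m_eq]; ring

theorem SData.sum_vsq (b : I → ℝ) (θ : Θ) :
    ∑ i, vsq D.toLam (D.T i) b θ = vsq D.toLam Finset.univ b θ := by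
  unfold vsq
  simp only [Lam.sum_at]
  have h1 : ∀ i, ∑ n ∈ D.T i, (if θ ∈ D.S n then b n ^ 2 else 0)
      = ∑ n, if D.sc n = i then (if θ ∈ D.S n then b n ^ 2 else 0) else 0 := by
    intro i
    unfold SData.T
    rw [Finset.sum_filter]
  simp only [h1]
  rw [Finset.sum_comm]
  apply Finset.sum_congr rfl
  intro n _
  rw [Finset.sum_ite_eq]
  simp

/-- flat comparison, integrated form -/
theorem SData.flat_le (B : Finset I) (θ : Θ) :
    ∑ i, vsq D.toLam (D.T i) (fun n => D.h n * if n ∈ B then 1 else 0) θ ^ (2 / 3 : ℝ)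
      ≤ (4 * vsq D.toLam Finset.univ (fun n => D.h n * if n ∈ B then 1 else 0) θ) ^ (2 / 3 : ℝ) := by
  rw [← D.sum_vsq]
  apply flats43 K _ (fun i => D.Q * D.q i ^ 2) (fun i => D.q i ^ 3)
  · intro i; exact vsq_nonneg _ _ _ _
  · intro i; have := D.q_pos i; have := D.Q_pos; positivity
  · intro i; exact (D.vsq_flat B i θ).2
  · intro i; exact (D.vsq_flat B i θ).1
  · exact D.sep

/-- first family of coefficients -/
noncomputable def SData.u (f : D.G X → ℝ) (n : I) : ℝ :=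
  (D.h n)⁻¹ * bc X D.toLam n (fun τ => f (some (D.sc n), τ))

/-- second family of coefficients -/
noncomputable def SData.v (f : D.G X → ℝ) (n : I) : ℝ :=
  (D.h n)⁻¹ * bc X D.toLam n (fun τ => f (none, τ))

/-- synthesis in the block -/
noncomputable def SData.E (w1 w2 : I → ℝ) : D.G X → ℝ
  | (some i, τ) => syn X D.toLam (D.T i) (fun n => D.h n * w1 n) τ
  | (none, τ) => syn X D.toLam Finset.univ (fun n => D.h n * w2 n) τ

/-- the norm on the block -/
noncomputable def nrm {G : Type} [Fintype G] (f : G → ℝ) : ℝ := ∑ γ, |f γ| ^ (4 / 3 : ℝ)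

theorem nrm_nonneg {G : Type} [Fintype G] (f : G → ℝ) : 0 ≤ nrm f :=
  Finset.sum_nonneg (fun _ _ => by positivity)

theorem SData.nrm_eq (f : D.G X → ℝ) :
    nrm f = nrm (fun τ : Θ × X.R => f (none, τ)) + ∑ i, nrm (fun τ : Θ × X.R => f (some i, τ)) := by
  unfold nrm
  rw [Fintype.sum_prod_type, Fintype.sum_option]

/-- lattice norms -/
noncomputable def SData.lat1 (a : I → ℝ) : ℝ :=
  ∑ i, ∑ θ, vsq D.toLam (D.T i) (fun n => D.h n * a n) θ ^ (2 / 3 : ℝ)

noncomputable def SData.lat2 (a : I → ℝ) : ℝ :=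
  ∑ θ, vsq D.toLam Finset.univ (fun n => D.h n * a n) θ ^ (2 / 3 : ℝ)

theorem SData.nrm_E_le (w1 w2 : I → ℝ) :
    nrm (D.E X w1 w2) ≤ Fintype.card X.R * (D.lat1 w1 + D.lat2 w2) := by
  rw [D.nrm_eq X, mul_add, add_comm]
  apply add_le_add
  · unfold SData.lat1
    rw [Finset.mul_sum]
    exact Finset.sum_le_sum (fun i _ => syn_upper X D.toLam _ _)
  · exact syn_upper X D.toLam _ _

theorem SData.lat_uv_le (f : D.G X → ℝ) :
    Fintype.card X.R * (D.lat1 (D.u X f) + D.lat2 (D.v X f)) ≤ 6 * nrm f := by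
  rw [D.nrm_eq X, mul_add, mul_add, add_comm]
  apply add_le_add
  · have h1 := coef_43 X D.toLam Finset.univ (fun τ => f (none, τ))
    unfold SData.lat2 SData.v
    have h2 : ∀ n, D.h n * ((D.h n)⁻¹ * bc X D.toLam n (fun τ => f (none, τ)))
        = bc X D.toLam n (fun τ => f (none, τ)) := by
      intro n
      rw [mul_inv_cancel_left₀ (D.h_pos n).ne']
    simp only [h2]
    exact h1
  · unfold SData.lat1 SData.u
    rw [Finset.mul_sum, Finset.mul_sum]
    apply Finset.sum_le_sum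
    intro i _
    have h1 := coef_43 X D.toLam (D.T i) (fun τ => f (some i, τ))
    refine le_trans (le_of_eq ?_) h1
    congr 1
    apply Finset.sum_congr rfl
    intro θ _
    congr 1
    unfold vsq
    apply Finset.sum_congr rfl
    intro n hn
    rw [Lam.mem_at, SData.mem_T] at hn
    simp only [mul_inv_cancel_left₀ (D.h_pos n).ne', hn.1]

theorem vsq_mono {L : Lam I Θ} (T : Finset I) (a b : I → ℝ) (hab : ∀ n, |a n| ≤ |b n|) (θ : Θ) :
    vsq L T a θ ≤ vsq L T b θ := by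
  unfold vsq
  apply Finset.sum_le_sum
  intro n _
  exact sq_le_sq.mpr (hab n)

/-- The quasi-greedy estimate in the lattices. -/
theorem SData.lattice_qg (u v w1 w2 : I → ℝ) (B : Finset I) (t : ℝ) (ht : 0 ≤ t)
    (h1 : ∀ n, |w1 n| ≤ 3 * |u n| + 2 * (t * if n ∈ B then 1 else 0))
    (h2 : ∀ n, |w2 n| ≤ |v n|)
    (h3 : ∀ n, (t * if n ∈ B then 1 else 0) ≤ 3 / 2 * |v n|) :
    D.lat1 w1 + D.lat2 w2 ≤ 7 * D.lat1 u + 19 * D.lat2 v := by
  have hind : ∀ n, 0 ≤ t * (if n ∈ B then (1 : ℝ) else 0) := by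
    intro n
    split_ifs
    · simpa using ht
    · simp
  -- second lattice
  have e1 : D.lat2 w2 ≤ D.lat2 v := by
    unfold SData.lat2
    apply Finset.sum_le_sum
    intro θ _
    apply Real.rpow_le_rpow (vsq_nonneg _ _ _ _) _ (by norm_num)
    apply vsq_mono
    intro n
    rw [abs_mul, abs_mul]
    exact mul_le_mul_of_nonneg_left (h2 n) (abs_nonneg _)
  -- first lattice
  have e2 : ∀ i θ, vsq D.toLam (D.T i) (fun n => D.h n * w1 n) θ
      ≤ 18 * vsq D.toLam (D.T i) (fun n => D.h n * u n) θ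
        + 8 * t ^ 2 * vsq D.toLam (D.T i) (fun n => D.h n * if n ∈ B then 1 else 0) θ := by
    intro i θ
    unfold vsq
    rw [Finset.mul_sum, Finset.mul_sum, ← Finset.sum_add_distrib]
    apply Finset.sum_le_sum
    intro n _
    have h4 := h1 n
    have h5 := hind n
    set χ : ℝ := (if n ∈ B then (1 : ℝ) else 0) with hχ
    have h6 : w1 n ^ 2 ≤ (3 * |u n| + 2 * (t * χ)) ^ 2 := by
      rw [← sq_abs (w1 n)]
      exact pow_le_pow_left₀ (abs_nonneg _) h4 2
    have h7 : (3 * |u n| + 2 * (t * χ)) ^ 2 ≤ 18 * |u n| ^ 2 + 8 * (t * χ) ^ 2 := by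
      nlinarith [sq_nonneg (3 * |u n| - 2 * (t * χ))]
    rw [sq_abs] at h7
    have h8 : w1 n ^ 2 ≤ 18 * u n ^ 2 + 8 * (t * χ) ^ 2 := le_trans h6 h7
    have h9 : 0 ≤ D.h n ^ 2 := sq_nonneg _
    calc (D.h n * w1 n) ^ 2 = D.h n ^ 2 * w1 n ^ 2 := by ring
      _ ≤ D.h n ^ 2 * (18 * u n ^ 2 + 8 * (t * χ) ^ 2) := mul_le_mul_of_nonneg_left h8 h9
      _ = 18 * (D.h n * u n) ^ 2 + 8 * t ^ 2 * (D.h n * χ) ^ 2 := by ring
  have sub23 : ∀ x y : ℝ, 0 ≤ x → 0 ≤ y →
      (x + y) ^ (2 / 3 : ℝ) ≤ x ^ (2 / 3 : ℝ) + y ^ (2 / 3 : ℝ) := by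
    intro x y hx hy
    exact Real.rpow_add_le_add_rpow hx hy (by norm_num) (by norm_num)
  have c18 : (18 : ℝ) ^ (2 / 3 : ℝ) ≤ 7 := by
    have h4 : ((18 : ℝ) ^ (2 / 3 : ℝ)) ^ 3 ≤ 7 ^ 3 := by
      rw [← Real.rpow_natCast, ← Real.rpow_mul (by norm_num)]
      norm_num
    exact le_of_pow_le_pow_left₀ (by norm_num) (by norm_num) h4
  have c72 : (72 : ℝ) ^ (2 / 3 : ℝ) ≤ 18 := by
    have h4 : ((72 : ℝ) ^ (2 / 3 : ℝ)) ^ 3 ≤ 18 ^ 3 := by
      rw [← Real.rpow_natCast, ← Real.rpow_mul (by norm_num)]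
      norm_num
    exact le_of_pow_le_pow_left₀ (by norm_num) (by norm_num) h4
  have e3 : ∀ i θ, vsq D.toLam (D.T i) (fun n => D.h n * w1 n) θ ^ (2 / 3 : ℝ)
      ≤ 7 * vsq D.toLam (D.T i) (fun n => D.h n * u n) θ ^ (2 / 3 : ℝ)
        + (8 * t ^ 2) ^ (2 / 3 : ℝ) *
          vsq D.toLam (D.T i) (fun n => D.h n * if n ∈ B then 1 else 0) θ ^ (2 / 3 : ℝ) := by
    intro i θ
    have hU := vsq_nonneg D.toLam (D.T i) (fun n => D.h n * u n) θ
    have hB := vsq_nonneg D.toLam (D.T i) (fun n => D.h n * if n ∈ B then 1 else 0) θ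
    refine le_trans (Real.rpow_le_rpow (vsq_nonneg _ _ _ _) (e2 i θ) (by norm_num)) ?_
    refine le_trans (sub23 _ _ (by positivity) (by positivity)) ?_
    rw [Real.mul_rpow (by norm_num) hU, Real.mul_rpow (by positivity) hB]
    have : 18 ^ (2 / 3 : ℝ) * vsq D.toLam (D.T i) (fun n => D.h n * u n) θ ^ (2 / 3 : ℝ)
        ≤ 7 * vsq D.toLam (D.T i) (fun n => D.h n * u n) θ ^ (2 / 3 : ℝ) :=
      mul_le_mul_of_nonneg_right c18 (by positivity)
    linarith
  have e4 : ∀ θ, (8 * t ^ 2) ^ (2 / 3 : ℝ) *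
        ∑ i, vsq D.toLam (D.T i) (fun n => D.h n * if n ∈ B then 1 else 0) θ ^ (2 / 3 : ℝ)
      ≤ 18 * vsq D.toLam Finset.univ (fun n => D.h n * v n) θ ^ (2 / 3 : ℝ) := by
    intro θ
    have hV := vsq_nonneg D.toLam Finset.univ (fun n => D.h n * v n) θ
    have hB := vsq_nonneg D.toLam Finset.univ (fun n => D.h n * if n ∈ B then 1 else 0) θ
    have h4 := mul_le_mul_of_nonneg_left (D.flat_le B θ)
      (show 0 ≤ (8 * t ^ 2) ^ (2 / 3 : ℝ) by positivity)
    refine le_trans h4 ?_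
    rw [← Real.mul_rpow (by positivity) (by positivity)]
    have h5 : 8 * t ^ 2 * (4 * vsq D.toLam Finset.univ (fun n => D.h n * if n ∈ B then 1 else 0) θ)
        ≤ 72 * vsq D.toLam Finset.univ (fun n => D.h n * v n) θ := by
      unfold vsq
      rw [Finset.mul_sum, Finset.mul_sum, Finset.mul_sum]
      apply Finset.sum_le_sum
      intro n _
      have h6 := h3 n
      have h7 := hind n
      set χ : ℝ := (if n ∈ B then (1 : ℝ) else 0) with hχ
      have h8 : (t * χ) ^ 2 ≤ (3 / 2 * |v n|) ^ 2 := pow_le_pow_left₀ h7 h6 2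
      have h8' : (3 / 2 * |v n|) ^ 2 = (3 / 2) ^ 2 * v n ^ 2 := by rw [mul_pow, sq_abs]
      rw [h8'] at h8
      have h9 : 0 ≤ D.h n ^ 2 := sq_nonneg _
      calc 8 * t ^ 2 * (4 * (D.h n * χ) ^ 2) = 32 * (D.h n ^ 2 * (t * χ) ^ 2) := by ring
        _ ≤ 32 * (D.h n ^ 2 * ((3 / 2) ^ 2 * v n ^ 2)) := by
            apply mul_le_mul_of_nonneg_left _ (by norm_num)
            exact mul_le_mul_of_nonneg_left h8 h9
        _ = 72 * (D.h n * v n) ^ 2 := by ring
    refine le_trans (Real.rpow_le_rpow (by positivity) h5 (by norm_num)) ?_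
    rw [Real.mul_rpow (by norm_num) hV]
    exact mul_le_mul_of_nonneg_right c72 (by positivity)
  have e5 : D.lat1 w1 ≤ 7 * D.lat1 u + 18 * D.lat2 v := by
    unfold SData.lat1 SData.lat2
    rw [Finset.sum_comm, Finset.sum_comm (f := fun i θ =>
      vsq D.toLam (D.T i) (fun n => D.h n * u n) θ ^ (2 / 3 : ℝ)), Finset.mul_sum, Finset.mul_sum,
      ← Finset.sum_add_distrib]
    apply Finset.sum_le_sum
    intro θ _
    refine le_trans (Finset.sum_le_sum (fun i _ => e3 i θ)) ?_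
    rw [Finset.sum_add_distrib, ← Finset.mul_sum, ← Finset.mul_sum]
    have := e4 θ
    linarith
  linarith

end Block

/-- Hölder's inequality in fourth power form. -/
theorem hold4 {ι : Type*} [Fintype ι] (x : ι → ℝ) (hx : ∀ i, 0 ≤ x i) :
    (∑ i, x i) ^ 4 ≤ Fintype.card ι * (∑ i, x i ^ (4 / 3 : ℝ)) ^ 3 := by
  have hconj : Real.HolderConjugate (4 / 3) 4 := by
    rw [Real.holderConjugate_iff]
    norm_num
  have h1 := Real.inner_le_Lp_mul_Lq Finset.univ x (fun _ => (1 : ℝ)) hconj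
  simp only [mul_one, abs_one, Real.one_rpow, Finset.sum_const, Finset.card_univ, nsmul_eq_mul] at h1
  have h2 : ∀ i, |x i| = x i := fun i => abs_of_nonneg (hx i)
  simp only [h2] at h1
  set A := ∑ i, x i ^ (4 / 3 : ℝ) with hA
  have hA0 : 0 ≤ A := Finset.sum_nonneg (fun i _ => Real.rpow_nonneg (hx i) _)
  have hs : 0 ≤ ∑ i, x i := Finset.sum_nonneg (fun i _ => hx i)
  have h3 := pow_le_pow_left₀ hs h1 4
  have h9 : (A ^ (1 / (4 / 3) : ℝ)) ^ 4 = A ^ 3 := by
    rw [← Real.rpow_natCast, ← Real.rpow_mul hA0]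
    norm_num
  have h10 : (((Fintype.card ι : ℝ)) ^ (1 / 4 : ℝ)) ^ 4 = Fintype.card ι := by
    rw [← Real.rpow_natCast, ← Real.rpow_mul (by positivity)]
    norm_num
  calc (∑ i, x i) ^ 4 ≤ (A ^ (1 / (4 / 3) : ℝ) * (Fintype.card ι : ℝ) ^ (1 / 4 : ℝ)) ^ 4 := h3
    _ = Fintype.card ι * A ^ 3 := by rw [mul_pow, h9, h10]; ring

/-- An abstract block: a biorthogonal system in a finite dimensional `ℓ_{4/3}` space. -/
structure Block (C k : ℝ) where
  J : Type
  G : Type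
  fJ : Fintype J
  fG : Fintype G
  dJ : DecidableEq J
  dG : DecidableEq G
  x : J → G → ℝ
  f : J → (G → ℝ) →ₗ[ℝ] ℝ
  biorth : ∀ m n, f m (x n) = if m = n then 1 else 0
  qg : ∀ (w : G → ℝ) (A : Finset J), (∀ n ∈ A, ∀ k ∉ A, |f k w| ≤ |f n w|) →
    nrm (fun γ => ∑ n ∈ A, f n w * x n γ) ≤ C * nrm w
  xb : ∀ n, nrm (x n) ≤ C
  fb : ∀ n w, |f n w| ^ (4 / 3 : ℝ) ≤ C * nrm w
  bad : ∃ (g : (G → ℝ) →ₗ[ℝ] ℝ) (b : ℝ) (A : Finset J) (w : G → ℝ), 0 ≤ b ∧
    (∀ w, |g w| ^ 4 ≤ b * nrm w ^ 3) ∧ (∀ n ∈ A, ∀ k ∉ A, |g (x k)| ≤ |g (x n)|) ∧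
    k * b * nrm w ^ 3 < |∑ n ∈ A, g (x n) * f n w| ^ 4

section Block2

variable {K : ℕ} {I Θ : Type} [Fintype I] [Fintype Θ] [DecidableEq I] [DecidableEq Θ]
  (X : Rad I) (D : SData K I Θ)

theorem bc_add (L : Lam I Θ) (n : I) (F G : Θ × X.R → ℝ) :
    bc X L n (fun τ => F τ + G τ) = bc X L n F + bc X L n G := by
  rw [bc_eq, bc_eq, bc_eq, ← mul_add]
  congr 1
  unfold mom
  simp only [add_mul, Finset.sum_add_distrib]

theorem bc_smul (L : Lam I Θ) (n : I) (c : ℝ) (F : Θ × X.R → ℝ) :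
    bc X L n (fun τ => c * F τ) = c * bc X L n F := by
  rw [bc_eq, bc_eq]
  unfold mom
  simp only [mul_assoc, ← Finset.mul_sum]
  ring

/-- coefficients as linear maps -/
noncomputable def SData.uL (n : I) : (D.G X → ℝ) →ₗ[ℝ] ℝ where
  toFun f := D.u X f n
  map_add' f g := by
    unfold SData.u
    rw [← mul_add, ← bc_add]
    rfl
  map_smul' c f := by
    change (D.h n)⁻¹ * bc X D.toLam n (fun τ => c * f (some (D.sc n), τ))
      = c * ((D.h n)⁻¹ * bc X D.toLam n (fun τ => f (some (D.sc n), τ)))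
    rw [bc_smul]
    ring

noncomputable def SData.vL (n : I) : (D.G X → ℝ) →ₗ[ℝ] ℝ where
  toFun f := D.v X f n
  map_add' f g := by
    unfold SData.v
    rw [← mul_add, ← bc_add]
    rfl
  map_smul' c f := by
    change (D.h n)⁻¹ * bc X D.toLam n (fun τ => c * f (none, τ))
      = c * ((D.h n)⁻¹ * bc X D.toLam n (fun τ => f (none, τ)))
    rw [bc_smul]
    ring

theorem SData.uL_apply (n : I) (f : D.G X → ℝ) : D.uL X n f = D.u X f n := rfl
theorem SData.vL_apply (n : I) (f : D.G X → ℝ) : D.vL X n f = D.v X f n := rfl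

/-- coefficients of a synthesised function -/
theorem bc_syn (L : Lam I Θ) (T : Finset I) (b : I → ℝ) (n : I) :
    bc X L n (syn X L T b) = if n ∈ T then b n else 0 := by
  have hR := X.card_pos
  have hS : (0 : ℝ) < (L.S n).card := by exact_mod_cast L.ne n
  rw [bc_eq]
  unfold mom
  have h1 : ∀ θ ∈ L.S n, ∑ ρ, syn X L T b (θ, ρ) * X.r n ρ
      = if n ∈ T then b n * Fintype.card X.R else 0 := by
    intro θ hθ
    simp only [syn_eq, Finset.sum_mul]
    rw [Finset.sum_comm]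
    have h2 : ∀ m, ∑ ρ, (if m ∈ L.at T θ then b m else 0) * X.r m ρ * X.r n ρ
        = if m = n then (if n ∈ L.at T θ then b n else 0) * Fintype.card X.R else 0 := by
      intro m
      simp only [mul_assoc, ← Finset.mul_sum, X.orth]
      split_ifs with h3 h4 h5 h6
      · rw [h4]
      · subst h4; exact absurd h3 h5
      · simp
      · subst h6; exact absurd ‹m ∈ L.at T θ› h3
      · simp
      · simp
    simp only [h2]
    rw [Finset.sum_ite_eq' Finset.univ n, if_pos (Finset.mem_univ _)]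
    have h3 : n ∈ L.at T θ ↔ n ∈ T := by
      rw [Lam.mem_at]
      exact ⟨fun h => h.1, fun h => ⟨h, hθ⟩⟩
    simp only [h3]
    split_ifs <;> simp
  rw [Finset.sum_congr rfl h1, Finset.sum_const, nsmul_eq_mul]
  split_ifs
  · field_simp
  · simp

theorem SData.u_E (w1 w2 : I → ℝ) (n : I) : D.u X (D.E X w1 w2) n = w1 n := by
  have h := (D.h_pos n).ne'
  unfold SData.u
  have h1 : (fun τ => D.E X w1 w2 (some (D.sc n), τ))
      = syn X D.toLam (D.T (D.sc n)) (fun n => D.h n * w1 n) := rfl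
  rw [h1, bc_syn, if_pos ((D.mem_T _ _).mpr rfl), inv_mul_cancel_left₀ h]

theorem SData.v_E (w1 w2 : I → ℝ) (n : I) : D.v X (D.E X w1 w2) n = w2 n := by
  have h := (D.h_pos n).ne'
  unfold SData.v
  have h1 : (fun τ => D.E X w1 w2 (none, τ))
      = syn X D.toLam Finset.univ (fun n => D.h n * w2 n) := rfl
  rw [h1, bc_syn, if_pos (Finset.mem_univ _), inv_mul_cancel_left₀ h]

/-- raw basis vectors of the block -/
noncomputable def SData.xr : I ⊕ I → D.G X → ℝ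
  | Sum.inl n => D.E X (Pi.single n 1) 0
  | Sum.inr n => D.E X (Pi.single n 1) (Pi.single n 1)

/-- raw coordinate functionals of the block -/
noncomputable def SData.fr : I ⊕ I → (D.G X → ℝ) →ₗ[ℝ] ℝ
  | Sum.inl n => D.uL X n - D.vL X n
  | Sum.inr n => D.vL X n

theorem SData.fr_inl (n : I) (f : D.G X → ℝ) :
    D.fr X (Sum.inl n) f = D.u X f n - D.v X f n := rfl

theorem SData.fr_inr (n : I) (f : D.G X → ℝ) : D.fr X (Sum.inr n) f = D.v X f n := rfl

theorem SData.raw_biorth (m n : I ⊕ I) : D.fr X m (D.xr X n) = if m = n then 1 else 0 := by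
  rcases m with m | m <;> rcases n with n | n
  · rw [D.fr_inl]
    unfold SData.xr
    rw [D.u_E, D.v_E]
    simp [Pi.single_apply]
  · rw [D.fr_inl]
    unfold SData.xr
    rw [D.u_E, D.v_E]
    simp
  · rw [D.fr_inr]
    unfold SData.xr
    rw [D.v_E]
    simp
  · rw [D.fr_inr]
    unfold SData.xr
    rw [D.v_E]
    simp [Pi.single_apply]

theorem SData.E_eq (w1 w2 : I → ℝ) (γ : D.G X) :
    D.E X w1 w2 γ = ∑ n, (w1 n * D.E X (Pi.single n 1) 0 γ
      + w2 n * (D.E X (Pi.single n 1) (Pi.single n 1) γ - D.E X (Pi.single n 1) 0 γ)) := by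
  obtain ⟨c, τ⟩ := γ
  cases c with
  | none =>
    change syn X D.toLam Finset.univ (fun n => D.h n * w2 n) τ
      = ∑ n, (w1 n * syn X D.toLam Finset.univ (fun n => D.h n * (0 : I → ℝ) n) τ
      + w2 n * (syn X D.toLam Finset.univ (fun m => D.h m * (Pi.single n 1 : I → ℝ) m) τ
        - syn X D.toLam Finset.univ (fun n => D.h n * (0 : I → ℝ) n) τ))
    have h0 : syn X D.toLam Finset.univ (fun n => D.h n * (0 : I → ℝ) n) τ = 0 := by
      unfold syn
      simp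
    have h1 : ∀ n, syn X D.toLam Finset.univ (fun m => D.h m * (Pi.single n 1 : I → ℝ) m) τ
        = if n ∈ D.toLam.at Finset.univ τ.1 then D.h n * X.r n τ.2 else 0 := by
      intro n
      unfold syn
      simp only [Pi.single_apply, mul_ite, mul_one, mul_zero, ite_mul, zero_mul]
      rw [Finset.sum_ite_eq']
    simp only [h0, h1, mul_zero, sub_zero, zero_add]
    unfold syn
    simp only [mul_ite, mul_zero]
    rw [Finset.sum_ite_mem, Finset.univ_inter]
    apply Finset.sum_congr rfl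
    intro n _
    ring
  | some i =>
    change syn X D.toLam (D.T i) (fun n => D.h n * w1 n) τ
      = ∑ n, (w1 n * syn X D.toLam (D.T i) (fun m => D.h m * (Pi.single n 1 : I → ℝ) m) τ
      + w2 n * (syn X D.toLam (D.T i) (fun m => D.h m * (Pi.single n 1 : I → ℝ) m) τ
        - syn X D.toLam (D.T i) (fun m => D.h m * (Pi.single n 1 : I → ℝ) m) τ))
    have h1 : ∀ n, syn X D.toLam (D.T i) (fun m => D.h m * (Pi.single n 1 : I → ℝ) m) τ
        = if n ∈ D.toLam.at (D.T i) τ.1 then D.h n * X.r n τ.2 else 0 := by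
      intro n
      unfold syn
      simp only [Pi.single_apply, mul_ite, mul_one, mul_zero, ite_mul, zero_mul]
      rw [Finset.sum_ite_eq']
    simp only [h1, sub_self, mul_zero, add_zero]
    unfold syn
    simp only [mul_ite, mul_zero]
    rw [Finset.sum_ite_mem, Finset.univ_inter]
    apply Finset.sum_congr rfl
    intro n _
    ring

theorem sum_sum_mem (A : Finset (I ⊕ I)) (g : I ⊕ I → ℝ) :
    ∑ j ∈ A, g j = ∑ n, ((if Sum.inl n ∈ A then g (Sum.inl n) else 0)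
      + (if Sum.inr n ∈ A then g (Sum.inr n) else 0)) := by
  have h1 : ∑ j ∈ A, g j = ∑ j, if j ∈ A then g j else 0 := by
    rw [Finset.sum_ite_mem, Finset.univ_inter]
  rw [h1, Fintype.sum_sum_type, Finset.sum_add_distrib]

theorem SData.greedy_sum (A : Finset (I ⊕ I)) (c : I ⊕ I → ℝ) (γ : D.G X) :
    ∑ j ∈ A, c j * D.xr X j γ = D.E X
      (fun n => (if Sum.inl n ∈ A then c (Sum.inl n) else 0)
        + (if Sum.inr n ∈ A then c (Sum.inr n) else 0))
      (fun n => if Sum.inr n ∈ A then c (Sum.inr n) else 0) γ := by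
  rw [D.E_eq, sum_sum_mem]
  apply Finset.sum_congr rfl
  intro n _
  unfold SData.xr
  simp only
  split_ifs <;> ring

theorem SData.raw_qg (w : D.G X → ℝ) (A : Finset (I ⊕ I))
    (hA : ∀ n ∈ A, ∀ k ∉ A, |D.fr X k w| ≤ |D.fr X n w|) :
    nrm (fun γ => ∑ n ∈ A, D.fr X n w * D.xr X n γ) ≤ 114 * nrm w := by
  have hR := X.card_pos
  have hw := nrm_nonneg w
  rcases A.eq_empty_or_nonempty with h0 | hne
  · subst h0
    simp only [Finset.sum_empty]
    have : nrm (fun _ : D.G X => (0 : ℝ)) = 0 := by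
      unfold nrm
      apply Finset.sum_eq_zero
      intro γ _
      rw [abs_zero, Real.zero_rpow (by norm_num)]
    rw [this]
    positivity
  obtain ⟨j0, hj0, hmin⟩ := Finset.exists_min_image A (fun j => |D.fr X j w|) hne
  set t : ℝ := |D.fr X j0 w| with ht
  have ht0 : 0 ≤ t := abs_nonneg _
  have hin : ∀ j ∈ A, t ≤ |D.fr X j w| := hmin
  have hout : ∀ j ∉ A, |D.fr X j w| ≤ t := fun j hj => hA j0 hj0 j hj
  set u : I → ℝ := D.u X w with hu
  set v : I → ℝ := D.v X w with hv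
  set B : Finset I := Finset.univ.filter (fun n => |u n| < |v n| / 2 ∧
    ¬ (Sum.inl n ∈ A ↔ Sum.inr n ∈ A)) with hB
  set w1 : I → ℝ := fun n => (if Sum.inl n ∈ A then D.fr X (Sum.inl n) w else 0)
        + (if Sum.inr n ∈ A then D.fr X (Sum.inr n) w else 0) with hw1
  set w2 : I → ℝ := fun n => if Sum.inr n ∈ A then D.fr X (Sum.inr n) w else 0 with hw2
  have hsum : (fun γ => ∑ n ∈ A, D.fr X n w * D.xr X n γ) = D.E X w1 w2 := by
    funext γ
    exact D.greedy_sum X A (fun j => D.fr X j w) γ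
  rw [hsum]
  refine le_trans (D.nrm_E_le X w1 w2) ?_
  have key := D.lattice_qg u v w1 w2 B t ht0 ?_ ?_ ?_
  · have h1 := D.lat_uv_le X w
    rw [← hu, ← hv] at h1
    have hl1 : 0 ≤ D.lat1 u := by
      unfold SData.lat1
      exact Finset.sum_nonneg (fun i _ => Finset.sum_nonneg (fun θ _ =>
        Real.rpow_nonneg (vsq_nonneg _ _ _ _) _))
    calc Fintype.card X.R * (D.lat1 w1 + D.lat2 w2)
        ≤ Fintype.card X.R * (7 * D.lat1 u + 19 * D.lat2 v) :=
          mul_le_mul_of_nonneg_left key hR.le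
      _ ≤ Fintype.card X.R * (19 * (D.lat1 u + D.lat2 v)) := by
          apply mul_le_mul_of_nonneg_left _ hR.le
          linarith
      _ = 19 * (Fintype.card X.R * (D.lat1 u + D.lat2 v)) := by ring
      _ ≤ 19 * (6 * nrm w) := mul_le_mul_of_nonneg_left h1 (by norm_num)
      _ = 114 * nrm w := by ring
  · intro n
    simp only [hw1]
    rw [D.fr_inl, D.fr_inr]
    have hB' : n ∈ B ↔ |u n| < |v n| / 2 ∧ ¬ (Sum.inl n ∈ A ↔ Sum.inr n ∈ A) := by
      rw [hB, Finset.mem_filter]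
      simp
    have hun := abs_nonneg (u n)
    have hvn := abs_nonneg (v n)
    have htri : |u n - v n| ≤ |u n| + |v n| := abs_sub _ _
    have htri2 : |v n| - |u n| ≤ |u n - v n| := by
      have := abs_sub_abs_le_abs_sub (v n) (u n)
      rwa [abs_sub_comm] at this
    by_cases h1 : Sum.inl n ∈ A
    · by_cases h2 : Sum.inr n ∈ A
      · rw [if_pos h1, if_pos h2]
        have h3 : D.u X w n - D.v X w n + D.v X w n = u n := by rw [sub_add_cancel]
        rw [h3]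
        split_ifs <;> nlinarith
      · rw [if_pos h1, if_neg h2, add_zero]
        by_cases h3 : |u n| < |v n| / 2
        · rw [if_pos (hB'.mpr ⟨h3, fun h => h2 (h.mp h1)⟩)]
          have h4 := hout _ h2
          rw [D.fr_inr] at h4
          change |u n - v n| ≤ _
          change |v n| ≤ t at h4
          linarith
        · rw [if_neg (fun h => h3 (hB'.mp h).1)]
          change |u n - v n| ≤ _
          linarith
    · by_cases h2 : Sum.inr n ∈ A
      · rw [if_neg h1, if_pos h2, zero_add]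
        by_cases h3 : |u n| < |v n| / 2
        · rw [if_pos (hB'.mpr ⟨h3, fun h => h1 (h.mpr h2)⟩)]
          have h4 := hout _ h1
          rw [D.fr_inl] at h4
          change |v n| ≤ _
          change |u n - v n| ≤ t at h4
          linarith
        · rw [if_neg (fun h => h3 (hB'.mp h).1)]
          change |v n| ≤ _
          linarith
      · rw [if_neg h1, if_neg h2, add_zero, abs_zero]
        split_ifs <;> nlinarith
  · intro n
    simp only [hw2]
    rw [D.fr_inr]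
    split_ifs
    · exact le_rfl
    · rw [abs_zero]; exact abs_nonneg _
  · intro n
    have hB' : n ∈ B ↔ |u n| < |v n| / 2 ∧ ¬ (Sum.inl n ∈ A ↔ Sum.inr n ∈ A) := by
      rw [hB, Finset.mem_filter]
      simp
    have hvn := abs_nonneg (v n)
    have htri : |u n - v n| ≤ |u n| + |v n| := abs_sub _ _
    split_ifs with h
    · rw [mul_one]
      obtain ⟨h3, h4⟩ := hB'.mp h
      by_cases h1 : Sum.inl n ∈ A
      · have h5 := hin _ h1
        rw [D.fr_inl] at h5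
        change t ≤ |u n - v n| at h5
        linarith
      · have h2 : Sum.inr n ∈ A := by
          by_contra h2
          exact h4 ⟨fun h => absurd h h1, fun h => absurd h h2⟩
        have h5 := hin _ h2
        rw [D.fr_inr] at h5
        change t ≤ |v n| at h5
        linarith
    · rw [mul_zero]; positivity

end Block2

section Block3

variable {K : ℕ} {I Θ : Type} [Fintype I] [Fintype Θ] [DecidableEq I] [DecidableEq Θ]
  (X : Rad I) (D : SData K I Θ)

/-- lattice norms of unit vectors -/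
theorem SData.single_pow (T : Finset I) (n : I) (c : ℝ) (θ : Θ) :
    vsq D.toLam T (fun m => D.h m * (Pi.single n c : I → ℝ) m) θ
      = if n ∈ D.toLam.at T θ then (D.h n * c) ^ 2 else 0 := by
  unfold vsq
  have h1 : ∀ m, (D.h m * (Pi.single n c : I → ℝ) m) ^ 2 = if m = n then (D.h n * c) ^ 2 else 0 := by
    intro m
    rw [Pi.single_apply]
    split_ifs with h
    · rw [h]
    · simp
  simp only [h1]
  rw [Finset.sum_ite_eq']

theorem SData.pow_h (n : I) : (D.h n ^ 2) ^ (2 / 3 : ℝ) = D.q (D.sc n) ^ 4 := by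
  have hq := D.q_pos (D.sc n)
  unfold SData.h
  have h1 : (D.q (D.sc n) ^ 3) ^ 2 = D.q (D.sc n) ^ (6 : ℝ) := by
    rw [← pow_mul]
    exact_mod_cast (Real.rpow_natCast (D.q (D.sc n)) 6).symm
  rw [h1, ← Real.rpow_mul hq.le]
  norm_num

theorem SData.lat2_single (n : I) (c : ℝ) :
    D.lat2 (Pi.single n c) = Fintype.card Θ * (c ^ 2) ^ (2 / 3 : ℝ) := by
  unfold SData.lat2
  simp only [D.single_pow]
  have h1 : ∀ θ, (if n ∈ D.toLam.at Finset.univ θ then (D.h n * c) ^ 2 else 0) ^ (2 / 3 : ℝ)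
      = if θ ∈ D.S n then D.q (D.sc n) ^ 4 * (c ^ 2) ^ (2 / 3 : ℝ) else 0 := by
    intro θ
    have h2 : n ∈ D.toLam.at Finset.univ θ ↔ θ ∈ D.S n := by
      rw [Lam.mem_at]
      exact ⟨fun h => h.2, fun h => ⟨Finset.mem_univ _, h⟩⟩
    simp only [h2]
    split_ifs
    · rw [mul_pow, Real.mul_rpow (sq_nonneg _) (sq_nonneg _), D.pow_h]
    · rw [Real.zero_rpow (by norm_num)]
  simp only [h1]
  rw [Finset.sum_ite_mem, Finset.univ_inter, Finset.sum_const, nsmul_eq_mul, ← D.card_S n]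
  ring

theorem SData.lat1_single (n : I) (c : ℝ) :
    D.lat1 (Pi.single n c) = Fintype.card Θ * (c ^ 2) ^ (2 / 3 : ℝ) := by
  rw [← D.lat2_single n c]
  unfold SData.lat1 SData.lat2
  rw [Finset.sum_comm]
  apply Finset.sum_congr rfl
  intro θ _
  simp only [D.single_pow]
  have h1 : ∀ i, (if n ∈ D.toLam.at (D.T i) θ then (D.h n * c) ^ 2 else 0) ^ (2 / 3 : ℝ)
      = if D.sc n = i then (if n ∈ D.toLam.at Finset.univ θ then (D.h n * c) ^ 2 else 0)
        ^ (2 / 3 : ℝ) else 0 := by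
    intro i
    simp only [Lam.mem_at, D.mem_T, Finset.mem_univ, true_and]
    by_cases hi : D.sc n = i
    · simp [hi]
    · simp only [hi, false_and, if_false]
      rw [Real.zero_rpow (by norm_num)]
  simp only [h1]
  rw [Finset.sum_ite_eq]
  simp

theorem SData.lat2_zero : D.lat2 0 = 0 := by
  unfold SData.lat2 vsq
  simp [Real.zero_rpow]

theorem SData.lat1_zero : D.lat1 0 = 0 := by
  unfold SData.lat1 vsq
  simp [Real.zero_rpow]

theorem SData.raw_xb (j : I ⊕ I) :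
    nrm (D.xr X j) ≤ 2 * (Fintype.card X.R * Fintype.card Θ) := by
  have hR := X.card_pos
  have hΘ : (0 : ℝ) ≤ Fintype.card Θ := Nat.cast_nonneg _
  rcases j with n | n
  · unfold SData.xr
    refine le_trans (D.nrm_E_le X _ _) ?_
    rw [D.lat1_single, D.lat2_zero]
    simp only [one_pow, Real.one_rpow]
    nlinarith
  · unfold SData.xr
    refine le_trans (D.nrm_E_le X _ _) ?_
    rw [D.lat1_single, D.lat2_single]
    simp only [one_pow, Real.one_rpow]
    linarith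

theorem SData.lat1_mono (a b : I → ℝ) (hab : ∀ n, |a n| ≤ |b n|) : D.lat1 a ≤ D.lat1 b := by
  unfold SData.lat1
  apply Finset.sum_le_sum
  intro i _
  apply Finset.sum_le_sum
  intro θ _
  apply Real.rpow_le_rpow (vsq_nonneg _ _ _ _) _ (by norm_num)
  apply vsq_mono
  intro n
  rw [abs_mul, abs_mul]
  exact mul_le_mul_of_nonneg_left (hab n) (abs_nonneg _)

theorem SData.lat2_mono (a b : I → ℝ) (hab : ∀ n, |a n| ≤ |b n|) : D.lat2 a ≤ D.lat2 b := by
  unfold SData.lat2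
  apply Finset.sum_le_sum
  intro θ _
  apply Real.rpow_le_rpow (vsq_nonneg _ _ _ _) _ (by norm_num)
  apply vsq_mono
  intro n
  rw [abs_mul, abs_mul]
  exact mul_le_mul_of_nonneg_left (hab n) (abs_nonneg _)

theorem SData.lat1_nonneg (a : I → ℝ) : 0 ≤ D.lat1 a :=
  Finset.sum_nonneg (fun _ _ => Finset.sum_nonneg (fun _ _ =>
    Real.rpow_nonneg (vsq_nonneg _ _ _ _) _))

theorem SData.lat2_nonneg (a : I → ℝ) : 0 ≤ D.lat2 a :=
  Finset.sum_nonneg (fun _ _ => Real.rpow_nonneg (vsq_nonneg _ _ _ _) _)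

theorem rpow_43_eq (c : ℝ) : |c| ^ (4 / 3 : ℝ) = (c ^ 2) ^ (2 / 3 : ℝ) := by
  rw [← sq_abs, ← Real.rpow_natCast, ← Real.rpow_mul (abs_nonneg _)]
  norm_num

theorem SData.abs_u_le (w : D.G X → ℝ) (n : I) :
    Fintype.card X.R * Fintype.card Θ * |D.u X w n| ^ (4 / 3 : ℝ) ≤ 6 * nrm w := by
  have hR := X.card_pos
  have h1 := D.lat_uv_le X w
  have h2 := D.lat2_nonneg (D.v X w)
  have h3 : D.lat1 (Pi.single n (D.u X w n)) ≤ D.lat1 (D.u X w) := by
    apply D.lat1_mono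
    intro m
    rw [Pi.single_apply]
    split_ifs with h
    · rw [h]
    · rw [abs_zero]; exact abs_nonneg _
  rw [D.lat1_single, ← rpow_43_eq] at h3
  calc Fintype.card X.R * Fintype.card Θ * |D.u X w n| ^ (4 / 3 : ℝ)
      = Fintype.card X.R * (Fintype.card Θ * |D.u X w n| ^ (4 / 3 : ℝ)) := by ring
    _ ≤ Fintype.card X.R * (D.lat1 (D.u X w) + D.lat2 (D.v X w)) := by
        apply mul_le_mul_of_nonneg_left _ hR.le
        linarith
    _ ≤ 6 * nrm w := h1

theorem SData.abs_v_le (w : D.G X → ℝ) (n : I) :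
    Fintype.card X.R * Fintype.card Θ * |D.v X w n| ^ (4 / 3 : ℝ) ≤ 6 * nrm w := by
  have hR := X.card_pos
  have h1 := D.lat_uv_le X w
  have h2 := D.lat1_nonneg (D.u X w)
  have h3 : D.lat2 (Pi.single n (D.v X w n)) ≤ D.lat2 (D.v X w) := by
    apply D.lat2_mono
    intro m
    rw [Pi.single_apply]
    split_ifs with h
    · rw [h]
    · rw [abs_zero]; exact abs_nonneg _
  rw [D.lat2_single, ← rpow_43_eq] at h3
  calc Fintype.card X.R * Fintype.card Θ * |D.v X w n| ^ (4 / 3 : ℝ)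
      = Fintype.card X.R * (Fintype.card Θ * |D.v X w n| ^ (4 / 3 : ℝ)) := by ring
    _ ≤ Fintype.card X.R * (D.lat1 (D.u X w) + D.lat2 (D.v X w)) := by
        apply mul_le_mul_of_nonneg_left _ hR.le
        linarith
    _ ≤ 6 * nrm w := h1

theorem abs_sub_43 (a b : ℝ) :
    |a - b| ^ (4 / 3 : ℝ) ≤ 3 * (|a| ^ (4 / 3 : ℝ) + |b| ^ (4 / 3 : ℝ)) := by
  have h1 : |a - b| ≤ 2 * max |a| |b| := by
    refine le_trans (abs_sub a b) ?_
    have h1 := le_max_left |a| |b|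
    have h2 := le_max_right |a| |b|
    linarith
  have h2 := Real.rpow_le_rpow (abs_nonneg _) h1 (show (0 : ℝ) ≤ 4 / 3 by norm_num)
  rw [Real.mul_rpow (by norm_num) (le_trans (abs_nonneg a) (le_max_left _ _))] at h2
  have h3 : (2 : ℝ) ^ (4 / 3 : ℝ) ≤ 3 := by
    have h4 : ((2 : ℝ) ^ (4 / 3 : ℝ)) ^ 3 ≤ 3 ^ 3 := by
      rw [← Real.rpow_natCast, ← Real.rpow_mul (by norm_num)]
      norm_num
    exact le_of_pow_le_pow_left₀ (by norm_num) (by norm_num) h4
  have h4 : 0 ≤ |a| ^ (4 / 3 : ℝ) := by positivity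
  have h5 : 0 ≤ |b| ^ (4 / 3 : ℝ) := by positivity
  have h6 : (max |a| |b|) ^ (4 / 3 : ℝ) ≤ |a| ^ (4 / 3 : ℝ) + |b| ^ (4 / 3 : ℝ) := by
    rcases le_total |a| |b| with h | h
    · rw [max_eq_right h]; linarith
    · rw [max_eq_left h]; linarith
  refine le_trans h2 ?_
  have h7 : 0 ≤ (max |a| |b|) ^ (4 / 3 : ℝ) :=
    Real.rpow_nonneg (le_trans (abs_nonneg a) (le_max_left _ _)) _
  nlinarith

theorem SData.raw_fb (j : I ⊕ I) (w : D.G X → ℝ) :
    (Fintype.card X.R * Fintype.card Θ) * |D.fr X j w| ^ (4 / 3 : ℝ) ≤ 36 * nrm w := by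
  have hR := X.card_pos
  have hΘ : (0 : ℝ) ≤ Fintype.card Θ := Nat.cast_nonneg _
  have hu : ∀ n, _ := fun n => D.abs_u_le X w n
  have hv : ∀ n, _ := fun n => D.abs_v_le X w n
  have hw := nrm_nonneg w
  rcases j with n | n
  · rw [D.fr_inl]
    have h1 := abs_sub_43 (D.u X w n) (D.v X w n)
    have h2 := mul_le_mul_of_nonneg_left h1
      (show (0 : ℝ) ≤ Fintype.card X.R * Fintype.card Θ by positivity)
    have h3 := hu n
    have h4 := hv n
    linarith
  · rw [D.fr_inr]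
    have h4 := hv n
    linarith

/-- number of indices of a scale -/
theorem SData.card_T [Nonempty Θ] (i : Fin K) :
    ((D.T i).card : ℝ) = D.q i ^ 2 * D.Q ^ 2 := by
  have hΘ : (0 : ℝ) < Fintype.card Θ := by exact_mod_cast Fintype.card_pos
  have h1 : ∑ n ∈ D.T i, ((D.S n).card : ℝ) = Fintype.card Θ * D.m i := by
    have h2 : ∀ n, ((D.S n).card : ℝ) = ∑ θ, if θ ∈ D.S n then (1 : ℝ) else 0 := by
      intro n
      rw [Finset.sum_ite_mem, Finset.univ_inter, Finset.sum_const, nsmul_eq_mul, mul_one]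
    simp only [h2]
    rw [Finset.sum_comm]
    have h3 : ∀ θ, ∑ n ∈ D.T i, (if θ ∈ D.S n then (1 : ℝ) else 0) = D.m i := by
      intro θ
      rw [← D.mult i θ]
      unfold SData.T
      rw [← Finset.sum_filter, Finset.filter_filter, Finset.sum_const, nsmul_eq_mul, mul_one]
    simp only [h3]
    rw [Finset.sum_const, Finset.card_univ, nsmul_eq_mul]
  have h2 : ∑ n ∈ D.T i, D.q i ^ 4 * ((D.S n).card : ℝ) = (D.T i).card * Fintype.card Θ := by
    rw [← nsmul_eq_mul, ← Finset.sum_const]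
    apply Finset.sum_congr rfl
    intro n hn
    rw [D.mem_T] at hn
    rw [← D.card_S n, hn]
  rw [← Finset.mul_sum, h1] at h2
  have h3 : ((D.T i).card : ℝ) * Fintype.card Θ = (D.q i ^ 2 * D.Q ^ 2) * Fintype.card Θ := by
    rw [← h2, ← D.m_eq i]
    ring
  exact mul_right_cancel₀ hΘ.ne' h3

/-- sums over one scale -/
theorem SData.scale_sum [Nonempty Θ] (u : I → ℝ) (i : Fin K) :
    |∑ n ∈ D.T i, u n| ^ 4 ≤ D.Q ^ 4 * (Fintype.card Θ : ℝ)⁻¹ ^ 3 *
      (∑ θ, vsq D.toLam (D.T i) (fun n => D.h n * u n) θ ^ (2 / 3 : ℝ)) ^ 3 := by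
  have hΘ : (0 : ℝ) < Fintype.card Θ := by exact_mod_cast Fintype.card_pos
  have hq := D.q_pos i
  have hQ := D.Q_pos
  set N : ℝ := (Fintype.card Θ : ℝ) with hN
  set V : Θ → ℝ := fun θ => vsq D.toLam (D.T i) (fun n => D.h n * u n) θ with hV
  have hV0 : ∀ θ, 0 ≤ V θ := fun θ => vsq_nonneg _ _ _ _
  -- averaging
  have h1 : N * ∑ n ∈ D.T i, u n = D.q i ^ 4 * ∑ θ, ∑ n ∈ D.toLam.at (D.T i) θ, u n := by
    simp only [Lam.sum_at]
    rw [Finset.sum_comm, Finset.mul_sum, Finset.mul_sum]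
    apply Finset.sum_congr rfl
    intro n hn
    rw [D.mem_T] at hn
    rw [Finset.sum_ite_mem, Finset.univ_inter, Finset.sum_const, nsmul_eq_mul, ← mul_assoc, hN,
      ← D.card_S n, hn]
  -- Cauchy-Schwarz at each point
  have h2 : ∀ θ, |∑ n ∈ D.toLam.at (D.T i) θ, u n| ≤ D.Q * (D.q i ^ 4)⁻¹ * √(V θ) := by
    intro θ
    have hcard : ((D.toLam.at (D.T i) θ).card : ℝ) = D.m i := by
      rw [← D.mult i θ]
      congr 2
      ext n
      rw [Lam.mem_at, D.mem_T, Finset.mem_filter]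
      simp
    have h3 : (∑ n ∈ D.toLam.at (D.T i) θ, u n) ^ 2
        ≤ D.m i * ∑ n ∈ D.toLam.at (D.T i) θ, u n ^ 2 := by
      rw [← hcard]
      exact sq_sum_le_card_mul_sum_sq
    have h4 : V θ = (D.q i ^ 3) ^ 2 * ∑ n ∈ D.toLam.at (D.T i) θ, u n ^ 2 := by
      rw [hV]
      simp only [vsq]
      rw [Finset.mul_sum]
      apply Finset.sum_congr rfl
      intro n hn
      rw [Lam.mem_at, D.mem_T] at hn
      simp only [SData.h, hn.1]
      ring
    have h5 : (D.Q * (D.q i ^ 4)⁻¹ * √(V θ)) ^ 2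
        = D.m i * ∑ n ∈ D.toLam.at (D.T i) θ, u n ^ 2 := by
      rw [mul_pow, mul_pow, Real.sq_sqrt (hV0 θ), h4, ← D.m_eq i]
      field_simp
    rw [← h5] at h3
    exact abs_le_of_sq_le_sq h3 (by positivity)
  have h3 : |∑ n ∈ D.T i, u n| ≤ N⁻¹ * D.Q * ∑ θ, √(V θ) := by
    have h4 : ∑ n ∈ D.T i, u n = N⁻¹ * (D.q i ^ 4 * ∑ θ, ∑ n ∈ D.toLam.at (D.T i) θ, u n) := by
      rw [← h1, inv_mul_cancel_left₀ hΘ.ne']
    rw [h4, abs_mul, abs_mul, abs_of_pos (inv_pos.mpr hΘ), abs_of_pos (pow_pos hq 4), mul_assoc]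
    apply mul_le_mul_of_nonneg_left _ (by positivity)
    calc D.q i ^ 4 * |∑ θ, ∑ n ∈ D.toLam.at (D.T i) θ, u n|
        ≤ D.q i ^ 4 * ∑ θ, D.Q * (D.q i ^ 4)⁻¹ * √(V θ) := by
          apply mul_le_mul_of_nonneg_left _ (by positivity)
          exact le_trans (Finset.abs_sum_le_sum_abs _ _) (Finset.sum_le_sum (fun θ _ => h2 θ))
      _ = D.Q * ∑ θ, √(V θ) := by
          rw [← Finset.mul_sum]
          field_simp
  have h4 := hold4 (fun θ => √(V θ)) (fun θ => Real.sqrt_nonneg _)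
  have h5 : ∀ θ, √(V θ) ^ (4 / 3 : ℝ) = V θ ^ (2 / 3 : ℝ) := by
    intro θ
    rw [Real.sqrt_eq_rpow, ← Real.rpow_mul (hV0 θ)]
    norm_num
  simp only [h5] at h4
  calc |∑ n ∈ D.T i, u n| ^ 4 ≤ (N⁻¹ * D.Q * ∑ θ, √(V θ)) ^ 4 :=
        pow_le_pow_left₀ (abs_nonneg _) h3 4
    _ = (N⁻¹ * D.Q) ^ 4 * (∑ θ, √(V θ)) ^ 4 := by rw [mul_pow]
    _ ≤ (N⁻¹ * D.Q) ^ 4 * (N * (∑ θ, V θ ^ (2 / 3 : ℝ)) ^ 3) :=
        mul_le_mul_of_nonneg_left h4 (by positivity)
    _ = D.Q ^ 4 * N⁻¹ ^ 3 * (∑ θ, V θ ^ (2 / 3 : ℝ)) ^ 3 := by field_simp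

theorem SData.sum_T (u : I → ℝ) : ∑ n, u n = ∑ i, ∑ n ∈ D.T i, u n := by
  unfold SData.T
  exact (Finset.sum_fiberwise Finset.univ D.sc u).symm

theorem SData.total_sum [Nonempty Θ] (u : I → ℝ) :
    |∑ n, u n| ^ 4 ≤ K * (D.Q ^ 4 * (Fintype.card Θ : ℝ)⁻¹ ^ 3) * D.lat1 u ^ 3 := by
  have hΘ : (0 : ℝ) < Fintype.card Θ := by exact_mod_cast Fintype.card_pos
  have hQ := D.Q_pos
  set c : ℝ := D.Q ^ 4 * (Fintype.card Θ : ℝ)⁻¹ ^ 3 with hc
  have hc0 : 0 ≤ c := by positivity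
  set A : Fin K → ℝ := fun i => ∑ θ, vsq D.toLam (D.T i) (fun n => D.h n * u n) θ ^ (2 / 3 : ℝ)
    with hA
  have hA0 : ∀ i, 0 ≤ A i := fun i => Finset.sum_nonneg (fun θ _ =>
    Real.rpow_nonneg (vsq_nonneg _ _ _ _) _)
  have h1 : |∑ n, u n| ≤ ∑ i, |∑ n ∈ D.T i, u n| := by
    rw [D.sum_T]
    exact Finset.abs_sum_le_sum_abs _ _
  have h2 := hold4 (fun i => |∑ n ∈ D.T i, u n|) (fun i => abs_nonneg _)
  rw [Fintype.card_fin] at h2
  have h3 : ∀ i, |∑ n ∈ D.T i, u n| ^ (4 / 3 : ℝ) ≤ c ^ (1 / 3 : ℝ) * A i := by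
    intro i
    have h4 := D.scale_sum u i
    have h5 := Real.rpow_le_rpow (by positivity) h4 (show (0 : ℝ) ≤ 1 / 3 by norm_num)
    have h6 : (|∑ n ∈ D.T i, u n| ^ 4) ^ (1 / 3 : ℝ) = |∑ n ∈ D.T i, u n| ^ (4 / 3 : ℝ) := by
      rw [← Real.rpow_natCast, ← Real.rpow_mul (abs_nonneg _)]
      norm_num
    have h7 : (A i ^ 3) ^ (1 / 3 : ℝ) = A i := by
      rw [← Real.rpow_natCast, ← Real.rpow_mul (hA0 i)]
      norm_num
    rw [h6, Real.mul_rpow hc0 (pow_nonneg (hA0 i) 3), h7] at h5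
    exact h5
  have h4 : (∑ i, |∑ n ∈ D.T i, u n| ^ (4 / 3 : ℝ)) ^ 3 ≤ c * D.lat1 u ^ 3 := by
    have h5 : ∑ i, |∑ n ∈ D.T i, u n| ^ (4 / 3 : ℝ) ≤ c ^ (1 / 3 : ℝ) * D.lat1 u := by
      refine le_trans (Finset.sum_le_sum (fun i _ => h3 i)) ?_
      rw [← Finset.mul_sum]
      rfl
    have h6 := pow_le_pow_left₀ (Finset.sum_nonneg (fun i _ => by positivity)) h5 3
    rw [mul_pow] at h6
    have h7 : (c ^ (1 / 3 : ℝ)) ^ 3 = c := by
      rw [← Real.rpow_natCast, ← Real.rpow_mul hc0]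
      norm_num
    rwa [h7] at h6
  calc |∑ n, u n| ^ 4 ≤ (∑ i, |∑ n ∈ D.T i, u n|) ^ 4 := pow_le_pow_left₀ (abs_nonneg _) h1 4
    _ ≤ K * (∑ i, |∑ n ∈ D.T i, u n| ^ (4 / 3 : ℝ)) ^ 3 := h2
    _ ≤ K * (c * D.lat1 u ^ 3) := mul_le_mul_of_nonneg_left h4 (by positivity)
    _ = K * c * D.lat1 u ^ 3 := by ring

theorem SData.raw_bad [Nonempty Θ] (k : ℝ) (hk0 : 0 ≤ k) (hk : 216 * k < K) :
    ∃ (g : (D.G X → ℝ) →ₗ[ℝ] ℝ) (b : ℝ) (A : Finset (I ⊕ I)) (w : D.G X → ℝ), 0 ≤ b ∧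
    (∀ w, |g w| ^ 4 ≤ b * nrm w ^ 3) ∧
    (∀ n ∈ A, ∀ k ∉ A, |g (D.xr X k)| ≤ |g (D.xr X n)|) ∧
    k * b * nrm w ^ 3 < |∑ n ∈ A, g (D.xr X n) * D.fr X n w| ^ 4 := by
  have hR := X.card_pos
  have hΘ : (0 : ℝ) < Fintype.card Θ := by exact_mod_cast Fintype.card_pos
  have hQ := D.Q_pos
  have hK : (0 : ℝ) < K := lt_of_le_of_lt (by positivity) hk
  set N : ℝ := (Fintype.card Θ : ℝ) with hN
  set M : ℝ := (Fintype.card X.R : ℝ) with hM
  set g : (D.G X → ℝ) →ₗ[ℝ] ℝ := ∑ n, D.uL X n with hg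
  have hgf : ∀ f, g f = ∑ n, D.u X f n := by
    intro f
    rw [hg, LinearMap.sum_apply]
    rfl
  have hgx : ∀ j, g (D.xr X j) = 1 := by
    intro j
    rw [hgf]
    rcases j with n | n
    · unfold SData.xr
      simp only [D.u_E]
      rw [Finset.sum_pi_single']
      simp
    · unfold SData.xr
      simp only [D.u_E]
      rw [Finset.sum_pi_single']
      simp
  set x : I → ℝ := fun n => (D.Q * D.q (D.sc n) ^ 2)⁻¹ with hx
  refine ⟨g, K * (D.Q ^ 4 * N⁻¹ ^ 3) * (6 / M) ^ 3, Finset.univ.map Function.Embedding.inl,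
    D.E X 0 x, by positivity, ?_, ?_, ?_⟩
  · intro w
    rw [hgf]
    refine le_trans (D.total_sum _) ?_
    rw [mul_assoc (K * (D.Q ^ 4 * N⁻¹ ^ 3))]
    apply mul_le_mul_of_nonneg_left _ (by positivity)
    rw [← mul_pow]
    apply pow_le_pow_left₀ (D.lat1_nonneg _)
    have h1 := D.lat_uv_le X w
    have h2 := D.lat2_nonneg (D.v X w)
    rw [div_mul_eq_mul_div, le_div_iff₀ hR]
    nlinarith
  · intro n _ k _
    rw [hgx, hgx]
  · -- the value
    have h1 : ∑ n ∈ Finset.univ.map Function.Embedding.inl, g (D.xr X n) * D.fr X n (D.E X 0 x)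
        = - (K * D.Q) := by
      rw [Finset.sum_map]
      have h2 : ∀ n, g (D.xr X (Function.Embedding.inl n))
          * D.fr X (Function.Embedding.inl n) (D.E X 0 x) = - x n := by
        intro n
        rw [hgx, one_mul]
        change D.fr X (Sum.inl n) (D.E X 0 x) = _
        rw [D.fr_inl, D.u_E, D.v_E]
        simp
      simp only [h2, Finset.sum_neg_distrib]
      rw [D.sum_T]
      have h3 : ∀ i, ∑ n ∈ D.T i, x n = D.Q := by
        intro i
        have hq := D.q_pos i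
        have h4 : ∑ n ∈ D.T i, x n = ∑ n ∈ D.T i, (D.Q * D.q i ^ 2)⁻¹ := by
          apply Finset.sum_congr rfl
          intro n hn
          rw [D.mem_T] at hn
          rw [hx]
          simp only [hn]
        rw [h4, Finset.sum_const, nsmul_eq_mul, D.card_T]
        field_simp
      simp only [h3]
      rw [Finset.sum_const, Finset.card_univ, Fintype.card_fin, nsmul_eq_mul]
    rw [h1, abs_neg, abs_of_pos (by positivity)]
    -- the norm of the test vector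
    have h2 : ∀ θ, vsq D.toLam Finset.univ (fun n => D.h n * x n) θ = K := by
      intro θ
      rw [← D.sum_vsq]
      have h3 : ∀ i, vsq D.toLam (D.T i) (fun n => D.h n * x n) θ = 1 := by
        intro i
        have hq := D.q_pos i
        unfold vsq
        have h4 : ∑ n ∈ D.toLam.at (D.T i) θ, (D.h n * x n) ^ 2
            = ∑ n ∈ D.toLam.at (D.T i) θ, (D.q i ^ 3 * (D.Q * D.q i ^ 2)⁻¹) ^ 2 := by
          apply Finset.sum_congr rfl
          intro n hn
          rw [Lam.mem_at, D.mem_T] at hn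
          simp only [SData.h, hx, hn.1]
        have hcard : ((D.toLam.at (D.T i) θ).card : ℝ) = D.m i := by
          rw [← D.mult i θ]
          congr 2
          ext n
          rw [Lam.mem_at, D.mem_T, Finset.mem_filter]
          simp
        rw [h4, Finset.sum_const, nsmul_eq_mul, hcard]
        have h5 : (D.q i ^ 3 * (D.Q * D.q i ^ 2)⁻¹) ^ 2 = D.q i ^ 2 / D.Q ^ 2 := by
          field_simp
        rw [h5, ← mul_div_assoc, D.m_eq, div_self (by positivity)]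
      simp only [h3]
      rw [Finset.sum_const, Finset.card_univ, Fintype.card_fin, nsmul_eq_mul, mul_one]
    have h3 : nrm (D.E X 0 x) ≤ M * (N * (K : ℝ) ^ (2 / 3 : ℝ)) := by
      refine le_trans (D.nrm_E_le X _ _) ?_
      rw [D.lat1_zero, zero_add]
      unfold SData.lat2
      simp only [h2]
      rw [Finset.sum_const, Finset.card_univ, nsmul_eq_mul]
    have h4 : nrm (D.E X 0 x) ^ 3 ≤ M ^ 3 * N ^ 3 * K ^ 2 := by
      refine le_trans (pow_le_pow_left₀ (nrm_nonneg _) h3 3) (le_of_eq ?_)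
      have h5 : ((K : ℝ) ^ (2 / 3 : ℝ)) ^ 3 = K ^ 2 := by
        rw [← Real.rpow_natCast, ← Real.rpow_mul hK.le]
        norm_num
      rw [mul_pow, mul_pow, h5]
      ring
    calc k * (K * (D.Q ^ 4 * N⁻¹ ^ 3) * (6 / M) ^ 3) * nrm (D.E X 0 x) ^ 3
        ≤ k * (K * (D.Q ^ 4 * N⁻¹ ^ 3) * (6 / M) ^ 3) * (M ^ 3 * N ^ 3 * K ^ 2) :=
          mul_le_mul_of_nonneg_left h4 (by positivity)
      _ = (216 * k) * (K ^ 3 * D.Q ^ 4) := by field_simp; ring
      _ < K * (K ^ 3 * D.Q ^ 4) := by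
          apply mul_lt_mul_of_pos_right hk
          positivity
      _ = (K * D.Q) ^ 4 := by ring

theorem nrm_smul {G : Type} [Fintype G] (c : ℝ) (f : G → ℝ) :
    nrm (fun γ => c * f γ) = |c| ^ (4 / 3 : ℝ) * nrm f := by
  unfold nrm
  rw [Finset.mul_sum]
  apply Finset.sum_congr rfl
  intro γ _
  rw [abs_mul, Real.mul_rpow (abs_nonneg _) (abs_nonneg _)]

end Block3

/-- The block attached to multi-scale data. -/
theorem SData.block {K : ℕ} {I Θ : Type} [Fintype I] [Fintype Θ] [DecidableEq I] [DecidableEq Θ]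
    (D : SData K I Θ) [Nonempty Θ] (k : ℝ) (hk0 : 0 ≤ k) (hk : 216 * k < K) :
    Nonempty (Block 114 k) := by
  obtain ⟨X⟩ := exists_rad I
  have hR := X.card_pos
  have hΘ : (0 : ℝ) < Fintype.card Θ := by exact_mod_cast Fintype.card_pos
  set N : ℝ := Fintype.card X.R * Fintype.card Θ with hN
  have hN0 : 0 < N := by positivity
  set s : ℝ := N ^ (3 / 4 : ℝ) with hs
  have hs0 : 0 < s := by positivity
  have hsN : s ^ (4 / 3 : ℝ) = N := by
    rw [hs, ← Real.rpow_mul hN0.le]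
    norm_num
  refine ⟨⟨I ⊕ I, D.G X, inferInstance, inferInstance, inferInstance, Classical.decEq _,
    fun j γ => s⁻¹ * D.xr X j γ, fun j => s • D.fr X j, ?_, ?_, ?_, ?_, ?_⟩⟩
  · intro m n
    have h1 : (fun γ => s⁻¹ * D.xr X n γ) = s⁻¹ • D.xr X n := rfl
    rw [h1, LinearMap.smul_apply, map_smul, D.raw_biorth, smul_eq_mul, smul_eq_mul,
      mul_inv_cancel_left₀ hs0.ne']
  · intro w A hA
    have h1 : (fun γ => ∑ n ∈ A, (s • D.fr X n) w * (s⁻¹ * D.xr X n γ))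
        = fun γ => ∑ n ∈ A, D.fr X n w * D.xr X n γ := by
      funext γ
      apply Finset.sum_congr rfl
      intro n _
      rw [LinearMap.smul_apply, smul_eq_mul]
      field_simp
    rw [h1]
    apply D.raw_qg
    intro n hn k hk
    have h2 := hA n hn k hk
    rw [LinearMap.smul_apply, LinearMap.smul_apply, smul_eq_mul, smul_eq_mul, abs_mul, abs_mul]
      at h2
    exact le_of_mul_le_mul_left h2 (abs_pos.mpr hs0.ne')
  · intro n
    rw [nrm_smul, abs_of_pos (inv_pos.mpr hs0), Real.inv_rpow hs0.le, hsN, inv_mul_le_iff₀ hN0]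
    have := D.raw_xb X n
    rw [← hN] at this
    linarith
  · intro n w
    rw [LinearMap.smul_apply, smul_eq_mul, abs_mul, Real.mul_rpow (abs_nonneg _) (abs_nonneg _),
      abs_of_pos hs0, hsN]
    have h1 := D.raw_fb X n w
    rw [← hN] at h1
    have h2 := nrm_nonneg w
    linarith
  · obtain ⟨g, b, A, w, hb, hgb, hA, hbad⟩ := D.raw_bad X k hk0 hk
    refine ⟨g, b, A, w, hb, hgb, ?_, ?_⟩
    · intro n hn k hk
      have h1 : ∀ j, (fun γ => s⁻¹ * D.xr X j γ) = s⁻¹ • D.xr X j := fun _ => rfl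
      rw [h1, h1, map_smul, map_smul, smul_eq_mul, smul_eq_mul, abs_mul, abs_mul]
      exact mul_le_mul_of_nonneg_left (hA n hn k hk) (abs_nonneg _)
    · refine lt_of_lt_of_eq hbad ?_
      congr 2
      apply Finset.sum_congr rfl
      intro n _
      have h1 : (fun γ => s⁻¹ * D.xr X n γ) = s⁻¹ • D.xr X n := rfl
      rw [h1, map_smul, LinearMap.smul_apply, smul_eq_mul, smul_eq_mul]
      field_simp

/-! ### Existence of multi-scale data -/

theorem card_div_eq (N d q j : ℕ) (hd : 0 < d) (hN : q * d = N) (hj : j < q) :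
    (Finset.univ.filter (fun θ : Fin N => (θ : ℕ) / d = j)).card = d := by
  have hlt : ∀ t : Fin d, j * d + t < N := by
    intro t
    rw [← hN]
    calc j * d + t < j * d + d := by have := t.2; omega
      _ = (j + 1) * d := by ring
      _ ≤ q * d := Nat.mul_le_mul_right d hj
  have h1 : Finset.univ.filter (fun θ : Fin N => (θ : ℕ) / d = j)
      = Finset.univ.image (fun t : Fin d => (⟨j * d + t, hlt t⟩ : Fin N)) := by
    ext θ
    rw [Finset.mem_filter, Finset.mem_image]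
    constructor
    · rintro ⟨_, h⟩
      refine ⟨⟨(θ : ℕ) % d, Nat.mod_lt _ hd⟩, Finset.mem_univ _, ?_⟩
      apply Fin.ext
      simp only
      rw [← h, mul_comm]
      exact Nat.div_add_mod _ _
    · rintro ⟨t, _, rfl⟩
      refine ⟨Finset.mem_univ _, ?_⟩
      simp only
      rw [mul_comm, Nat.mul_add_div hd, Nat.div_eq_of_lt t.2, add_zero]
  rw [h1, Finset.card_image_of_injective]
  · rw [Finset.card_univ, Fintype.card_fin]
  · intro a b hab
    have := congrArg Fin.val hab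
    simp only at this
    apply Fin.ext
    omega

theorem div_nested (d d' : ℕ) (hdd : d' ∣ d) (a b : ℕ) (h : a / d' = b / d') : a / d = b / d := by
  obtain ⟨c, rfl⟩ := hdd
  rw [← Nat.div_div_eq_div_mul, ← Nat.div_div_eq_div_mul, h]

/-- construction of multi-scale data -/
theorem exists_sdata_aux (K Q : ℕ) (q p : Fin K → ℕ) (hqp : ∀ i, q i * p i = Q) (hQ : 0 < Q)
    (hdvd : ∀ i j, i ≤ j → p j ∣ p i)
    (sep : ∀ i, ∑ j, (if j < i then (Q : ℝ) * (q j : ℝ) ^ 2 else 0) ≤ (q i : ℝ) ^ 3) :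
    ∃ (I Θ : Type) (_ : Fintype I) (_ : Fintype Θ) (_ : DecidableEq I) (_ : DecidableEq Θ)
      (_ : Nonempty Θ), Nonempty (SData K I Θ) := by
  have hq : ∀ i, 0 < q i := by
    intro i
    rcases Nat.eq_zero_or_pos (q i) with h | h
    · have := hqp i; rw [h, zero_mul] at this; omega
    · exact h
  have hp : ∀ i, 0 < p i := by
    intro i
    rcases Nat.eq_zero_or_pos (p i) with h | h
    · have := hqp i; rw [h, mul_zero] at this; omega
    · exact h
  have hqp4 : ∀ i, q i ^ 4 * p i ^ 4 = Q ^ 4 := fun i => by rw [← mul_pow, hqp]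
  have hQ4 : 0 < Q ^ 4 := pow_pos hQ 4
  let I : Type := Σ i : Fin K, Fin (q i ^ 4) × Fin (p i ^ 2)
  let Θ : Type := Fin (Q ^ 4)
  let S : I → Finset Θ := fun n => Finset.univ.filter (fun θ : Fin (Q ^ 4) =>
    (θ : ℕ) / p n.1 ^ 4 = (n.2.1 : ℕ))
  have hmem : ∀ (n : I) (θ : Θ), θ ∈ S n ↔ (θ : ℕ) / p n.1 ^ 4 = (n.2.1 : ℕ) := by
    intro n θ
    change θ ∈ Finset.univ.filter _ ↔ _
    rw [Finset.mem_filter]
    simp
  have hcard : ∀ n : I, (S n).card = p n.1 ^ 4 := fun n =>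
    card_div_eq (Q ^ 4) (p n.1 ^ 4) (q n.1 ^ 4) n.2.1 (pow_pos (hp _) 4) (hqp4 _) n.2.1.2
  have hnest : ∀ n m : I, n.1 ≤ m.1 → S m ⊆ S n ∨ Disjoint (S n) (S m) := by
    intro n m hnm
    by_cases h : Disjoint (S n) (S m)
    · right; exact h
    · left
      rw [Finset.not_disjoint_iff] at h
      obtain ⟨θ, h1, h2⟩ := h
      intro θ' h3
      rw [hmem] at h1 h2 h3 ⊢
      rw [← h1]
      apply div_nested _ (p m.1 ^ 4) (pow_dvd_pow_of_dvd (hdvd _ _ hnm) 4)
      rw [h3, h2]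
  refine ⟨I, Θ, inferInstance, inferInstance, inferInstance, inferInstance, ⟨⟨0, hQ4⟩⟩,
    ⟨{ S := S, lam := ?_, ne := ?_, sc := fun n => n.1, q := fun i => q i, Q := Q,
       m := fun i => p i ^ 2, q_pos := ?_, Q_pos := ?_, card_S := ?_, mult := ?_, m_eq := ?_,
       sep := sep }⟩⟩
  · intro n m
    rcases le_total n.1 m.1 with h | h
    · rcases hnest n m h with h1 | h1
      · right; left; exact h1
      · right; right; exact h1
    · rcases hnest m n h with h1 | h1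
      · left; exact h1
      · right; right; exact h1.symm
  · intro n
    rw [hcard]
    exact pow_pos (hp _) 4
  · intro i
    exact_mod_cast hq i
  · exact_mod_cast hQ
  · intro n
    rw [hcard, Fintype.card_fin]
    exact_mod_cast hqp4 n.1
  · intro i θ
    have hlt : (θ : ℕ) / p i ^ 4 < q i ^ 4 := by
      rw [Nat.div_lt_iff_lt_mul (pow_pos (hp i) 4), hqp4]
      exact θ.2
    have h1 : Finset.univ.filter (fun n : I => n.1 = i ∧ θ ∈ S n)
        = Finset.univ.image (fun l : Fin (p i ^ 2) => (⟨i, ⟨⟨(θ : ℕ) / p i ^ 4, hlt⟩, l⟩⟩ : I)) := by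
      ext n
      rw [Finset.mem_filter, Finset.mem_image, hmem]
      constructor
      · rintro ⟨_, h2, h3⟩
        obtain ⟨i', j, l⟩ := n
        simp only at h2
        subst h2
        refine ⟨l, Finset.mem_univ _, ?_⟩
        have h4 : (⟨(θ : ℕ) / p i' ^ 4, hlt⟩ : Fin (q i' ^ 4)) = j := Fin.ext h3
        rw [h4]
      · rintro ⟨l, _, rfl⟩
        exact ⟨Finset.mem_univ _, rfl, rfl⟩
    rw [h1, Finset.card_image_of_injective, Finset.card_univ, Fintype.card_fin]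
    intro a b hab
    exact (Prod.mk.inj (eq_of_heq (Sigma.mk.inj hab).2)).2
  · intro i
    rw [← hqp i]
    push_cast
    ring

theorem exists_sdata (K : ℕ) :
    ∃ (I Θ : Type) (_ : Fintype I) (_ : Fintype Θ) (_ : DecidableEq I) (_ : DecidableEq Θ)
      (_ : Nonempty Θ), Nonempty (SData K I Θ) := by
  let pn : ℕ → ℕ := fun i => 2 ^ (2 ^ (K - i))
  let qn : ℕ → ℕ := fun i => 2 ^ (2 ^ K - 2 ^ (K - i))
  have hqp : ∀ i, qn i * pn i = 2 ^ (2 ^ K) := by
    intro i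
    change 2 ^ (2 ^ K - 2 ^ (K - i)) * 2 ^ (2 ^ (K - i)) = 2 ^ (2 ^ K)
    rw [← pow_add]
    congr 1
    have : 2 ^ (K - i) ≤ 2 ^ K := Nat.pow_le_pow_right (by norm_num) (Nat.sub_le _ _)
    omega
  have hstep : ∀ i, i < K → pn i = pn (i + 1) ^ 2 := by
    intro i hi
    change 2 ^ (2 ^ (K - i)) = (2 ^ (2 ^ (K - (i + 1)))) ^ 2
    rw [← pow_mul]
    congr 1
    rw [← pow_succ]
    congr 1
    omega
  have hp2 : ∀ i, 2 ≤ pn i := by
    intro i
    change 2 ≤ 2 ^ (2 ^ (K - i))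
    calc 2 = 2 ^ 1 := by norm_num
      _ ≤ 2 ^ (2 ^ (K - i)) := Nat.pow_le_pow_right (by norm_num) Nat.one_le_two_pow
  -- the separation estimate in terms of `p`
  have hsep : ∀ i, i < K → ∑ j ∈ Finset.range i, ((pn j : ℝ) ^ 2)⁻¹ ≤ ((pn i : ℝ) ^ 3)⁻¹ := by
    intro i
    induction i with
    | zero =>
      intro _
      simp only [Finset.range_zero, Finset.sum_empty]
      positivity
    | succ i ih =>
      intro hi
      have h1 := ih (by omega)
      rw [Finset.sum_range_succ]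
      have h2 : (pn i : ℝ) = (pn (i + 1) : ℝ) ^ 2 := by exact_mod_cast hstep i (by omega)
      have h3 : (2 : ℝ) ≤ pn (i + 1) := by exact_mod_cast hp2 (i + 1)
      set x : ℝ := (pn (i + 1) : ℝ) with hx
      have hx0 : 0 < x := by linarith
      refine le_trans (add_le_add_left h1 _) ?_
      rw [h2]
      have h4 : ((x ^ 2) ^ 3)⁻¹ + ((x ^ 2) ^ 2)⁻¹ = (x ^ 3)⁻¹ * ((x ^ 3)⁻¹ + x⁻¹) := by
        field_simp
      rw [h4]
      have h5 : (x ^ 3)⁻¹ ≤ 1 / 8 := by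
        rw [inv_le_comm₀ (by positivity) (by norm_num)]
        norm_num
        calc (8 : ℝ) = 2 ^ 3 := by norm_num
          _ ≤ x ^ 3 := pow_le_pow_left₀ (by norm_num) h3 3
      have h6 : x⁻¹ ≤ 1 / 2 := by
        rw [inv_le_comm₀ hx0 (by norm_num)]
        norm_num
        exact h3
      have h7 : (0 : ℝ) ≤ (x ^ 3)⁻¹ := by positivity
      nlinarith
  apply exists_sdata_aux K (2 ^ (2 ^ K)) (fun i => qn i) (fun i => pn i) (fun i => hqp i)
    (by positivity)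
  · intro i j hij
    change 2 ^ (2 ^ (K - (j : ℕ))) ∣ 2 ^ (2 ^ (K - (i : ℕ)))
    apply pow_dvd_pow
    apply Nat.pow_le_pow_right (by norm_num)
    have : (i : ℕ) ≤ j := hij
    omega
  · intro i
    have hQ : ∀ j, (qn j : ℝ) = (2 ^ (2 ^ K) : ℕ) * (pn j : ℝ)⁻¹ := by
      intro j
      have h1 : (0 : ℝ) < pn j := by
        have := hp2 j
        have : 0 < pn j := by omega
        exact_mod_cast this
      have h2 : ((qn j * pn j : ℕ) : ℝ) = (2 ^ (2 ^ K) : ℕ) := by rw [hqp]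
      rw [← h2]
      push_cast
      field_simp
    set Q : ℝ := ((2 ^ (2 ^ K) : ℕ) : ℝ) with hQdef
    have hQ0 : 0 < Q := by positivity
    have h1 : ∑ j : Fin K, (if j < i then Q * (qn j : ℝ) ^ 2 else 0)
        = ∑ j ∈ Finset.range i, Q ^ 3 * ((pn j : ℝ) ^ 2)⁻¹ := by
      have h2 : ∑ j : Fin K, (if j < i then Q * (qn j : ℝ) ^ 2 else 0)
          = ∑ j ∈ Finset.range K, (if j < (i : ℕ) then Q * (qn j : ℝ) ^ 2 else 0) := by
        rw [← Fin.sum_univ_eq_sum_range (fun j => if j < (i : ℕ) then Q * (qn j : ℝ) ^ 2 else 0)]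
        rfl
      rw [h2, ← Finset.sum_filter]
      have h3 : (Finset.range K).filter (fun j => j < (i : ℕ)) = Finset.range i := by
        ext j
        rw [Finset.mem_filter, Finset.mem_range, Finset.mem_range]
        have := i.2
        omega
      rw [h3]
      apply Finset.sum_congr rfl
      intro j _
      rw [hQ]
      ring
    rw [h1, ← Finset.mul_sum, hQ, mul_pow, inv_pow]
    exact mul_le_mul_of_nonneg_left (hsep i i.2) (by positivity)

/-- Blocks with arbitrarily bad duals. -/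
theorem exists_block (k : ℝ) : Nonempty (Block 114 k) := by
  obtain ⟨K, hK⟩ := exists_nat_gt (216 * |k|)
  obtain ⟨I, Θ, _, _, _, _, _, ⟨D⟩⟩ := exists_sdata K
  obtain ⟨B⟩ := D.block |k| (abs_nonneg k) hK
  refine ⟨{ B with bad := ?_ }⟩
  obtain ⟨g, b, A, w, hb, hgb, hA, hbad⟩ := B.bad
  refine ⟨g, b, A, w, hb, hgb, hA, lt_of_le_of_lt ?_ hbad⟩
  have h1 : 0 ≤ @nrm B.G B.fG w := by
    let _ := B.fG
    exact nrm_nonneg w
  have h2 : 0 ≤ b * @nrm B.G B.fG w ^ 3 := by positivity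
  calc k * b * @nrm B.G B.fG w ^ 3 = k * (b * @nrm B.G B.fG w ^ 3) := by ring
    _ ≤ |k| * (b * @nrm B.G B.fG w ^ 3) := mul_le_mul_of_nonneg_right (le_abs_self k) h2
    _ = |k| * b * @nrm B.G B.fG w ^ 3 := by ring

end Pool.Agent.Lib.Pec23a5
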