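import Mathlib
import Pool.Agent.Lib.Pec23a5.Block

namespace Pool.Agent.Lib.Pec23a5

/-! ### The infinite sum and the swindle -/

attribute [instance] Block.fJ Block.fG Block.dJ Block.dG

open scoped ENNReal

/-- the exponent `4/3` -/
noncomputable def p43 : ℝ≥0∞ := ENNReal.ofReal (4 / 3)

theorem p43_toReal : p43.toReal = 4 / 3 := by
  unfold p43
  exact ENNReal.toReal_ofReal (by norm_num)

instance : Fact (1 ≤ p43) := ⟨by
  unfold p43
  rw [ENNReal.one_le_ofReal]
  norm_num⟩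

theorem p43_one_lt : 1 < p43 := by
  unfold p43
  rw [show (1 : ℝ≥0∞) = ENNReal.ofReal 1 by simp]
  exact (ENNReal.ofReal_lt_ofReal_iff (by norm_num)).mpr (by norm_num)

theorem p43_ne_two : p43 ≠ 2 := by
  intro h
  have := congrArg ENNReal.toReal h
  rw [p43_toReal] at this
  norm_num at this

theorem p43_ne_top : p43 ≠ ⊤ := ENNReal.ofReal_ne_top

/-- `ℓ_{4/3}(α)` -/
noncomputable abbrev LL (α : Type) := lp (fun _ : α => ℝ) p43

section LLbasic

variable {α : Type}

theorem LL.norm_pow (f : LL α) : ‖f‖ ^ (4 / 3 : ℝ) = ∑' i, |f i| ^ (4 / 3 : ℝ) := by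
  have h := lp.norm_rpow_eq_tsum (p := p43) (by rw [p43_toReal]; norm_num) f
  rw [p43_toReal] at h
  simpa only [Real.norm_eq_abs] using h

theorem LL.summable (f : LL α) : Summable (fun i => |f i| ^ (4 / 3 : ℝ)) := by
  have h := (lp.memℓp f).summable (by rw [p43_toReal]; norm_num)
  rw [p43_toReal] at h
  simpa only [Real.norm_eq_abs] using h

/-- constructor -/
noncomputable def LL.mk (g : α → ℝ) (h : Summable (fun i => |g i| ^ (4 / 3 : ℝ))) : LL α :=
  ⟨g, by
    apply memℓp_gen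
    rw [p43_toReal]
    simpa only [Real.norm_eq_abs] using h⟩

theorem LL.mk_apply (g : α → ℝ) (h : Summable (fun i => |g i| ^ (4 / 3 : ℝ))) (i : α) :
    LL.mk g h i = g i := rfl

theorem LL.norm_le_of_tsum {β : Type} (f : LL α) (g : LL β) (C : ℝ) (hC : 0 ≤ C)
    (h : ∑' i, |f i| ^ (4 / 3 : ℝ) ≤ C ^ (4 / 3 : ℝ) * ∑' i, |g i| ^ (4 / 3 : ℝ)) :
    ‖f‖ ≤ C * ‖g‖ := by
  rw [← LL.norm_pow, ← LL.norm_pow, ← Real.mul_rpow hC (norm_nonneg _)] at h
  exact (Real.rpow_le_rpow_iff (norm_nonneg _) (by positivity) (by norm_num)).mp h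

/-- A linear map on functions which preserves `ℓ_{4/3}`. -/
def Good {β : Type} (T : (α → ℝ) →ₗ[ℝ] (β → ℝ)) (C : ℝ) : Prop :=
  ∀ g : α → ℝ, Summable (fun i => |g i| ^ (4 / 3 : ℝ)) →
    Summable (fun i => |T g i| ^ (4 / 3 : ℝ)) ∧
      ∑' i, |T g i| ^ (4 / 3 : ℝ) ≤ C * ∑' i, |g i| ^ (4 / 3 : ℝ)

/-- The bounded operator of a good map. -/
noncomputable def toCLM {β : Type} (T : (α → ℝ) →ₗ[ℝ] (β → ℝ)) (C : ℝ) (hC : 0 ≤ C)
    (h : Good T C) : LL α →L[ℝ] LL β :=
  LinearMap.mkContinuous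
    { toFun := fun f => LL.mk (T f) (h f (LL.summable f)).1
      map_add' := fun f g => by
        apply lp.ext
        funext i
        change T (⇑f + ⇑g) i = T f i + T g i
        rw [map_add]; rfl
      map_smul' := fun c f => by
        apply lp.ext
        funext i
        change T (c • ⇑f) i = c * T f i
        rw [map_smul]; rfl }
    (C ^ (3 / 4 : ℝ)) (fun f => by
      apply LL.norm_le_of_tsum _ _ _ (by positivity)
      rw [← Real.rpow_mul hC]
      norm_num
      exact (h f (LL.summable f)).2)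

theorem toCLM_apply {β : Type} (T : (α → ℝ) →ₗ[ℝ] (β → ℝ)) (C : ℝ) (hC : 0 ≤ C)
    (h : Good T C) (f : LL α) (i : β) : toCLM T C hC h f i = T f i := rfl

end LLbasic

section Swindle

variable (B : ∀ k : ℕ, Block 114 (k : ℝ))

/-- coordinates: level, block, coordinate of the block -/
abbrev Lam2 : Type := Σ b : ℕ × ℕ, (B b.2).G

/-- restriction to a block -/
def blk (g : Lam2 B → ℝ) (m k : ℕ) : (B k).G → ℝ := fun γ => g ⟨(m, k), γ⟩

theorem summable_blocks (g : Lam2 B → ℝ) : Summable (fun i => |g i| ^ (4 / 3 : ℝ)) ↔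
    Summable (fun b : ℕ × ℕ => nrm (blk B g b.1 b.2)) := by
  rw [summable_sigma_of_nonneg (fun _ => by positivity)]
  have key : (fun b : ℕ × ℕ => ∑' γ, |g ⟨b, γ⟩| ^ (4 / 3 : ℝ))
      = fun b : ℕ × ℕ => nrm (blk B g b.1 b.2) := by
    funext b
    rw [tsum_fintype]
    rfl
  rw [key]
  exact ⟨fun h => h.2, fun h => ⟨fun b => Summable.of_finite, h⟩⟩

theorem tsum_blocks (g : Lam2 B → ℝ) (hg : Summable (fun i => |g i| ^ (4 / 3 : ℝ))) :
    ∑' i, |g i| ^ (4 / 3 : ℝ) = ∑' b : ℕ × ℕ, nrm (blk B g b.1 b.2) := by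
  rw [hg.tsum_sigma' (fun b => Summable.of_finite)]
  congr 1
  funext b
  rw [tsum_fintype]
  rfl

/-- blockwise bounded maps are good -/
theorem good_of_blocks (T : (Lam2 B → ℝ) →ₗ[ℝ] (Lam2 B → ℝ)) (C : ℝ)
    (h : ∀ g m k, nrm (blk B (T g) m k) ≤ C * nrm (blk B g m k)) : Good T C := by
  intro g hg
  have hg' := (summable_blocks B g).mp hg
  have h1 : Summable (fun b : ℕ × ℕ => nrm (blk B (T g) b.1 b.2)) :=
    Summable.of_nonneg_of_le (fun b => nrm_nonneg _) (fun b => h g b.1 b.2) (hg'.mul_left C)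
  have h2 := (summable_blocks B (T g)).mpr h1
  refine ⟨h2, ?_⟩
  rw [tsum_blocks B _ h2, tsum_blocks B _ hg, ← tsum_mul_left]
  exact h1.tsum_le_tsum (fun b => h g b.1 b.2) (hg'.mul_left C)

/-- the projection of a block -/
noncomputable def Pk (k : ℕ) : ((B k).G → ℝ) →ₗ[ℝ] ((B k).G → ℝ) where
  toFun w := fun γ => ∑ n, (B k).f n w * (B k).x n γ
  map_add' w w' := by
    funext γ
    simp only [map_add, add_mul, Finset.sum_add_distrib, Pi.add_apply]
  map_smul' c w := by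
    funext γ
    simp only [map_smul, smul_eq_mul, mul_assoc, RingHom.id_apply, Pi.smul_apply, Finset.mul_sum]

theorem Pk_apply (k : ℕ) (w : (B k).G → ℝ) (γ : (B k).G) :
    Pk B k w γ = ∑ n, (B k).f n w * (B k).x n γ := rfl

theorem Pk_eq (k : ℕ) (w : (B k).G → ℝ) : Pk B k w = ∑ n, (B k).f n w • (B k).x n := by
  funext γ
  rw [Pk_apply, Finset.sum_apply]
  rfl

theorem f_Pk (k : ℕ) (w : (B k).G → ℝ) (n : (B k).J) : (B k).f n (Pk B k w) = (B k).f n w := by
  rw [Pk_eq, map_sum]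
  simp only [map_smul, (B k).biorth, smul_eq_mul, mul_ite, mul_one, mul_zero]
  rw [Finset.sum_ite_eq]
  simp

theorem Pk_idem (k : ℕ) (w : (B k).G → ℝ) : Pk B k (Pk B k w) = Pk B k w := by
  rw [Pk_eq B k (Pk B k w), Pk_eq B k w]
  simp only [← Pk_eq, f_Pk]

theorem Pk_x (k : ℕ) (n : (B k).J) : Pk B k ((B k).x n) = (B k).x n := by
  rw [Pk_eq]
  simp only [(B k).biorth, ite_smul, one_smul, zero_smul]
  rw [Finset.sum_ite_eq']
  simp

theorem nrm_Pk_le (k : ℕ) (w : (B k).G → ℝ) : nrm (Pk B k w) ≤ 114 * nrm w := by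
  have := (B k).qg w Finset.univ (fun n _ k hk => absurd (Finset.mem_univ k) hk)
  exact this

/-- the projection on functions -/
noncomputable def Pf : (Lam2 B → ℝ) →ₗ[ℝ] (Lam2 B → ℝ) where
  toFun g := fun i => Pk B i.1.2 (blk B g i.1.1 i.1.2) i.2
  map_add' g h := by
    funext i
    have : blk B (g + h) i.1.1 i.1.2 = blk B g i.1.1 i.1.2 + blk B h i.1.1 i.1.2 := rfl
    rw [this, map_add]; rfl
  map_smul' c g := by
    funext i
    have : blk B (c • g) i.1.1 i.1.2 = c • blk B g i.1.1 i.1.2 := rfl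
    rw [this, map_smul]; rfl

theorem blk_Pf (g : Lam2 B → ℝ) (m k : ℕ) : blk B (Pf B g) m k = Pk B k (blk B g m k) := rfl

/-- forward shift on functions -/
def Sf : (Lam2 B → ℝ) →ₗ[ℝ] (Lam2 B → ℝ) where
  toFun g := fun i => if i.1.1 = 0 then 0 else g ⟨(i.1.1 - 1, i.1.2), i.2⟩
  map_add' g h := by
    funext i
    simp only [Pi.add_apply]
    split_ifs <;> simp
  map_smul' c g := by
    funext i
    simp only [Pi.smul_apply, smul_eq_mul, RingHom.id_apply]
    split_ifs <;> simp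

/-- backward shift on functions -/
def Rf : (Lam2 B → ℝ) →ₗ[ℝ] (Lam2 B → ℝ) where
  toFun g := fun i => g ⟨(i.1.1 + 1, i.1.2), i.2⟩
  map_add' _ _ := rfl
  map_smul' _ _ := rfl

theorem blk_Sf_zero (g : Lam2 B → ℝ) (k : ℕ) : blk B (Sf B g) 0 k = 0 := by
  funext γ
  simp [blk, Sf]

theorem blk_Sf_succ (g : Lam2 B → ℝ) (m k : ℕ) : blk B (Sf B g) (m + 1) k = blk B g m k := by
  funext γ
  simp [blk, Sf]

theorem blk_Rf (g : Lam2 B → ℝ) (m k : ℕ) : blk B (Rf B g) m k = blk B g (m + 1) k := rfl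

theorem ext_blk {g h : Lam2 B → ℝ} (hgh : ∀ m k, blk B g m k = blk B h m k) : g = h := by
  funext ⟨⟨m, k⟩, γ⟩
  exact congrFun (hgh m k) γ

theorem good_Pf : Good (Pf B) 114 := by
  apply good_of_blocks
  intro g m k
  rw [blk_Pf]
  exact nrm_Pk_le B k _

theorem nrm_zero' {G : Type} [Fintype G] : nrm (0 : G → ℝ) = 0 := by
  unfold nrm
  apply Finset.sum_eq_zero
  intro γ _
  rw [Pi.zero_apply, abs_zero, Real.zero_rpow (by norm_num)]

theorem good_Rf : Good (Rf B) 1 := by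
  intro g hg
  have hg' := (summable_blocks B g).mp hg
  let e : ℕ × ℕ → ℕ × ℕ := fun b => (b.1 + 1, b.2)
  have he : Function.Injective e := by
    rintro ⟨a, b⟩ ⟨c, d⟩ h
    have h1 := (Prod.mk.inj h).1
    have h2 := (Prod.mk.inj h).2
    simp only at h1 h2
    rw [h2, Nat.succ_injective h1]
  have hcomp : (fun b : ℕ × ℕ => nrm (blk B (Rf B g) b.1 b.2))
      = (fun b : ℕ × ℕ => nrm (blk B g b.1 b.2)) ∘ e := by
    funext b
    change nrm (blk B (Rf B g) b.1 b.2) = nrm (blk B g (b.1 + 1) b.2)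
    rw [blk_Rf]
  have h1 : Summable (fun b : ℕ × ℕ => nrm (blk B (Rf B g) b.1 b.2)) := by
    rw [hcomp]
    exact hg'.comp_injective he
  have h2 := (summable_blocks B (Rf B g)).mpr h1
  refine ⟨h2, ?_⟩
  rw [tsum_blocks B _ h2, tsum_blocks B _ hg, one_mul, hcomp]
  exact tsum_comp_le_tsum_of_inj hg' (fun b => nrm_nonneg _) he

theorem good_Sf : Good (Sf B) 1 := by
  intro g hg
  have hg' := (summable_blocks B g).mp hg
  let e : ℕ × ℕ → ℕ × ℕ := fun b => (b.1 + 1, b.2)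
  have he : Function.Injective e := by
    rintro ⟨a, b⟩ ⟨c, d⟩ h
    have h1 := (Prod.mk.inj h).1
    have h2 := (Prod.mk.inj h).2
    simp only at h1 h2
    rw [h2, Nat.succ_injective h1]
  have hsupp : ∀ b ∉ Set.range e, nrm (blk B (Sf B g) b.1 b.2) = 0 := by
    rintro ⟨m, k⟩ hb
    cases m with
    | zero => rw [blk_Sf_zero, nrm_zero']
    | succ m => exact absurd ⟨(m, k), rfl⟩ hb
  have hcomp : (fun b : ℕ × ℕ => nrm (blk B (Sf B g) b.1 b.2)) ∘ e
      = fun b : ℕ × ℕ => nrm (blk B g b.1 b.2) := by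
    funext b
    change nrm (blk B (Sf B g) (b.1 + 1) b.2) = _
    rw [blk_Sf_succ]
  have h1 : Summable (fun b : ℕ × ℕ => nrm (blk B (Sf B g) b.1 b.2)) := by
    rw [← he.summable_iff hsupp, hcomp]
    exact hg'
  have h2 := (summable_blocks B (Sf B g)).mpr h1
  refine ⟨h2, ?_⟩
  rw [tsum_blocks B _ h2, tsum_blocks B _ hg, one_mul]
  apply le_of_eq
  rw [← he.tsum_eq (f := fun b : ℕ × ℕ => nrm (blk B (Sf B g) b.1 b.2))
    (fun b hb => by
      by_contra hcon
      exact hb (hsupp b hcon))]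
  exact congrArg (fun h : ℕ × ℕ → ℝ => ∑' b, h b) hcomp

/-- the three operators -/
noncomputable def PP : LL (Lam2 B) →L[ℝ] LL (Lam2 B) := toCLM (Pf B) 114 (by norm_num) (good_Pf B)
noncomputable def SS : LL (Lam2 B) →L[ℝ] LL (Lam2 B) := toCLM (Sf B) 1 (by norm_num) (good_Sf B)
noncomputable def RR : LL (Lam2 B) →L[ℝ] LL (Lam2 B) := toCLM (Rf B) 1 (by norm_num) (good_Rf B)

theorem PP_coe (y : LL (Lam2 B)) : (PP B y : Lam2 B → ℝ) = Pf B y := rfl
theorem SS_coe (y : LL (Lam2 B)) : (SS B y : Lam2 B → ℝ) = Sf B y := rfl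
theorem RR_coe (y : LL (Lam2 B)) : (RR B y : Lam2 B → ℝ) = Rf B y := rfl

theorem PP_PP (y : LL (Lam2 B)) : PP B (PP B y) = PP B y := by
  apply lp.ext
  apply ext_blk
  intro m k
  rw [PP_coe, PP_coe, blk_Pf, blk_Pf, Pk_idem]

theorem RR_SS (y : LL (Lam2 B)) : RR B (SS B y) = y := by
  apply lp.ext
  apply ext_blk
  intro m k
  rw [RR_coe, SS_coe, blk_Rf, blk_Sf_succ]

theorem PP_SS (y : LL (Lam2 B)) : PP B (SS B y) = SS B (PP B y) := by
  apply lp.ext
  apply ext_blk
  intro m k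
  rw [PP_coe, SS_coe, SS_coe, PP_coe, blk_Pf]
  cases m with
  | zero => rw [blk_Sf_zero, blk_Sf_zero, map_zero]
  | succ m => rw [blk_Sf_succ, blk_Sf_succ, blk_Pf]

theorem PP_RR (y : LL (Lam2 B)) : PP B (RR B y) = RR B (PP B y) := by
  apply lp.ext
  apply ext_blk
  intro m k
  rw [PP_coe, RR_coe, RR_coe, PP_coe, blk_Pf, blk_Rf, blk_Rf, blk_Pf]

/-- the swindle operators -/
noncomputable def UU : LL (Lam2 B) →L[ℝ] LL (Lam2 B) :=
  ContinuousLinearMap.id ℝ _ - PP B + (SS B).comp (PP B)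

noncomputable def VV : LL (Lam2 B) →L[ℝ] LL (Lam2 B) :=
  ContinuousLinearMap.id ℝ _ - PP B + (RR B).comp (PP B)

theorem UU_apply (y : LL (Lam2 B)) : UU B y = y - PP B y + SS B (PP B y) := rfl
theorem VV_apply (y : LL (Lam2 B)) : VV B y = y - PP B y + RR B (PP B y) := rfl

theorem VV_UU (y : LL (Lam2 B)) : VV B (UU B y) = y := by
  rw [VV_apply, UU_apply]
  simp only [map_add, map_sub, PP_PP, PP_SS, RR_SS]
  abel

theorem UU_VV (y : LL (Lam2 B)) :
    UU B (VV B y) + (PP B y - SS B (RR B (PP B y))) = y := by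
  rw [VV_apply, UU_apply]
  simp only [map_add, map_sub, PP_PP, PP_RR]
  abel

end Swindle

section Basis

variable (B : ∀ k : ℕ, Block 114 (k : ℝ))

/-- embedding of a block at level zero, as a function -/
def emb (k : ℕ) (w : (B k).G → ℝ) : Lam2 B → ℝ := fun i =>
  if i.1.1 = 0 then (Pi.single k w : ∀ k, (B k).G → ℝ) i.1.2 i.2 else 0

theorem blk_emb_same (k : ℕ) (w : (B k).G → ℝ) : blk B (emb B k w) 0 k = w := by
  funext γ
  change (if (0 : ℕ) = 0 then (Pi.single k w : ∀ k, (B k).G → ℝ) k γ else 0) = w γ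
  rw [if_pos rfl, Pi.single_eq_same]

theorem blk_emb_ne (k : ℕ) (w : (B k).G → ℝ) (m k' : ℕ) (h : (m, k') ≠ (0, k)) :
    blk B (emb B k w) m k' = 0 := by
  funext γ
  change (if m = 0 then (Pi.single k w : ∀ k, (B k).G → ℝ) k' γ else 0) = 0
  split_ifs with hm
  · have hk : k' ≠ k := by
      rintro rfl
      exact h (by rw [hm])
    rw [Pi.single_eq_of_ne hk]
    rfl
  · rfl

theorem nrm_blk_emb (k : ℕ) (w : (B k).G → ℝ) (b : ℕ × ℕ) (hb : b ≠ (0, k)) :
    nrm (blk B (emb B k w) b.1 b.2) = 0 := by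
  rw [blk_emb_ne B k w b.1 b.2 hb, nrm_zero']

theorem emb_summable (k : ℕ) (w : (B k).G → ℝ) :
    Summable (fun i => |emb B k w i| ^ (4 / 3 : ℝ)) := by
  rw [summable_blocks]
  apply summable_of_ne_finset_zero (s := {(0, k)})
  intro b hb
  exact nrm_blk_emb B k w b (by simpa using hb)

/-- embedding of a block at level zero -/
noncomputable def embL (k : ℕ) (w : (B k).G → ℝ) : LL (Lam2 B) := LL.mk (emb B k w) (emb_summable B k w)

theorem embL_coe (k : ℕ) (w : (B k).G → ℝ) : (embL B k w : Lam2 B → ℝ) = emb B k w := rfl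

theorem norm_embL (k : ℕ) (w : (B k).G → ℝ) : ‖embL B k w‖ ^ (4 / 3 : ℝ) = nrm w := by
  rw [LL.norm_pow, tsum_blocks B _ (LL.summable _), tsum_eq_single (0, k)]
  · rw [embL_coe, blk_emb_same]
  · intro b hb
    exact nrm_blk_emb B k w b hb

theorem nrm_blk_le (y : LL (Lam2 B)) (m k : ℕ) : nrm (blk B y m k) ≤ ‖y‖ ^ (4 / 3 : ℝ) := by
  rw [LL.norm_pow, tsum_blocks B _ (LL.summable _)]
  exact ((summable_blocks B _).mp (LL.summable y)).le_tsum (m, k) (fun b _ => nrm_nonneg _)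

theorem le_of_rpow43 {a b C : ℝ} (ha : 0 ≤ a) (hb : 0 ≤ b) (hC : 1 ≤ C)
    (h : a ^ (4 / 3 : ℝ) ≤ C * b ^ (4 / 3 : ℝ)) : a ≤ C * b := by
  have hC0 : 0 ≤ C := by linarith
  have h1 : C ≤ C ^ (4 / 3 : ℝ) := by
    calc C = C ^ (1 : ℝ) := (Real.rpow_one C).symm
      _ ≤ C ^ (4 / 3 : ℝ) := Real.rpow_le_rpow_of_exponent_le hC (by norm_num)
  have h2 : a ^ (4 / 3 : ℝ) ≤ (C * b) ^ (4 / 3 : ℝ) := by
    rw [Real.mul_rpow hC0 hb]
    exact le_trans h (mul_le_mul_of_nonneg_right h1 (by positivity))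
  exact (Real.rpow_le_rpow_iff ha (by positivity) (by norm_num)).mp h2

/-- restriction to a block is linear -/
noncomputable def blkL (m k : ℕ) : LL (Lam2 B) →ₗ[ℝ] ((B k).G → ℝ) where
  toFun y := blk B y m k
  map_add' _ _ := rfl
  map_smul' _ _ := rfl

/-- coordinate functionals of the blocks -/
noncomputable def fz (s : Σ k, (B k).J) : LL (Lam2 B) →L[ℝ] ℝ :=
  LinearMap.mkContinuous (((B s.1).f s.2).comp (blkL B 0 s.1)) 114 (fun y => by
    rw [Real.norm_eq_abs]
    apply le_of_rpow43 (abs_nonneg _) (norm_nonneg _) (by norm_num)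
    refine le_trans ((B s.1).fb s.2 (blk B y 0 s.1)) ?_
    exact mul_le_mul_of_nonneg_left (nrm_blk_le B y 0 s.1) (by norm_num))

theorem fz_apply (s : Σ k, (B k).J) (y : LL (Lam2 B)) :
    fz B s y = (B s.1).f s.2 (blk B y 0 s.1) := rfl

theorem norm_fz_le (s : Σ k, (B k).J) : ‖fz B s‖ ≤ 114 :=
  LinearMap.mkContinuous_norm_le _ (by norm_num) _

/-- evaluation functional -/
noncomputable def ev (i : Lam2 B) : LL (Lam2 B) →L[ℝ] ℝ :=
  LinearMap.mkContinuous
    { toFun := fun y => y i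
      map_add' := fun _ _ => rfl
      map_smul' := fun _ _ => rfl } 1 (fun y => by
    rw [one_mul]
    exact lp.norm_apply_le_norm (by
      intro h
      have := congrArg ENNReal.toReal h
      rw [p43_toReal] at this
      norm_num at this) y i)

theorem ev_apply (i : Lam2 B) (y : LL (Lam2 B)) : ev B i y = y i := rfl

theorem norm_ev_le (i : Lam2 B) : ‖ev B i‖ ≤ 1 :=
  LinearMap.mkContinuous_norm_le _ (by norm_num) _

/-- index set of the basis -/
abbrev JJ : Type := (Σ k, (B k).J) ⊕ Lam2 B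

/-- unit vectors -/
noncomputable def dd (i : Lam2 B) : LL (Lam2 B) := lp.single p43 i (1 : ℝ)

/-- the basis -/
noncomputable def xx : JJ B → LL (Lam2 B)
  | Sum.inl s => embL B s.1 ((B s.1).x s.2)
  | Sum.inr i => UU B (dd B i)

/-- the coordinate functionals -/
noncomputable def ff : JJ B → (LL (Lam2 B) →L[ℝ] ℝ)
  | Sum.inl s => fz B s
  | Sum.inr i => (ev B i).comp (VV B)

theorem ff_inl (s : Σ k, (B k).J) (y : LL (Lam2 B)) :
    ff B (Sum.inl s) y = (B s.1).f s.2 (blk B y 0 s.1) := rfl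

theorem ff_inr (i : Lam2 B) (y : LL (Lam2 B)) : ff B (Sum.inr i) y = VV B y i := rfl

theorem PP_embL (k : ℕ) (w : (B k).G → ℝ) (hw : Pk B k w = w) : PP B (embL B k w) = embL B k w := by
  apply lp.ext
  apply ext_blk
  intro m k'
  rw [PP_coe, blk_Pf, embL_coe]
  by_cases h : (m, k') = (0, k)
  · have h1 := (Prod.mk.inj h).1
    have h2 := (Prod.mk.inj h).2
    subst h1 h2
    rw [blk_emb_same, hw]
  · rw [blk_emb_ne B k w m k' h, map_zero]

theorem RR_embL (k : ℕ) (w : (B k).G → ℝ) : RR B (embL B k w) = 0 := by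
  apply lp.ext
  apply ext_blk
  intro m k'
  rw [RR_coe, blk_Rf, embL_coe, blk_emb_ne B k w (m + 1) k' (by simp)]
  rfl

theorem blk0_UU (y : LL (Lam2 B)) (k : ℕ) :
    blk B (UU B y) 0 k = blk B y 0 k - Pk B k (blk B y 0 k) := by
  have h1 : blk B (UU B y) 0 k = blk B y 0 k - blk B (PP B y) 0 k + blk B (SS B (PP B y)) 0 k := rfl
  rw [h1, SS_coe, blk_Sf_zero, PP_coe, blk_Pf, add_zero]

theorem dd_apply (i j : Lam2 B) : dd B i j = if j = i then 1 else 0 := by
  unfold dd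
  rw [lp.single_apply, Pi.single_apply]

theorem biorth_all (a b : JJ B) [Decidable (a = b)] :
    ff B a (xx B b) = if a = b then 1 else 0 := by
  rcases a with ⟨k, n⟩ | i <;> rcases b with ⟨k', n'⟩ | i'
  · rw [ff_inl]
    change (B k).f n (blk B (emb B k' ((B k').x n')) 0 k) = _
    by_cases hk : k = k'
    · subst hk
      rw [blk_emb_same, (B k).biorth]
      by_cases hn : n = n'
      · subst hn
        simp
      · rw [if_neg hn, if_neg]
        intro h
        apply hn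
        have := Sum.inl.inj h
        exact eq_of_heq (Sigma.mk.inj this).2
    · rw [blk_emb_ne, map_zero, if_neg]
      · intro h
        exact hk (Sigma.mk.inj (Sum.inl.inj h)).1
      · intro h
        exact hk (Prod.mk.inj h).2
  · rw [ff_inl]
    change (B k).f n (blk B (UU B (dd B i')) 0 k) = _
    rw [blk0_UU, map_sub, f_Pk, sub_self, if_neg (by simp)]
  · rw [ff_inr]
    change (VV B (embL B k' ((B k').x n'))) i = _
    rw [VV_apply, PP_embL B k' _ (Pk_x B k' n'), RR_embL, sub_self, add_zero, if_neg (by simp)]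
    rfl
  · rw [ff_inr]
    change (VV B (UU B (dd B i'))) i = _
    rw [VV_UU, dd_apply]
    by_cases h : i = i'
    · subst h; simp
    · rw [if_neg h, if_neg (fun h' => h (Sum.inr.inj h'))]

theorem dense_dd : Dense (Submodule.span ℝ (Set.range (dd B)) : Set (LL (Lam2 B))) := by
  intro y
  have h := lp.hasSum_single p43_ne_top y
  refine mem_closure_of_tendsto h (Filter.Eventually.of_forall (fun s => ?_))
  apply Submodule.sum_mem
  intro i _
  have h1 : lp.single p43 i (y i) = (y i) • dd B i := by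
    unfold dd
    rw [← lp.single_smul, smul_eq_mul, mul_one]
  rw [h1]
  exact Submodule.smul_mem _ _ (Submodule.subset_span ⟨i, rfl⟩)

theorem dense_all : Dense (Submodule.span ℝ (Set.range (xx B)) : Set (LL (Lam2 B))) := by
  set K : Submodule ℝ (LL (Lam2 B)) := (Submodule.span ℝ (Set.range (xx B))).topologicalClosure
    with hK
  have hKc : IsClosed (K : Set (LL (Lam2 B))) := Submodule.isClosed_topologicalClosure _
  have hx : ∀ j, xx B j ∈ K := fun j =>
    Submodule.le_topologicalClosure _ (Submodule.subset_span ⟨j, rfl⟩)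
  -- a continuous linear map sending all unit vectors to `K` maps everything to `K`
  have key : ∀ T : LL (Lam2 B) →L[ℝ] LL (Lam2 B), (∀ i, T (dd B i) ∈ K) → ∀ y, T y ∈ K := by
    intro T hT y
    have h1 : IsClosed {y | T y ∈ K} := hKc.preimage T.continuous
    have h2 : (Submodule.span ℝ (Set.range (dd B)) : Set (LL (Lam2 B))) ⊆ {y | T y ∈ K} := by
      have h3 : Submodule.span ℝ (Set.range (dd B)) ≤ K.comap T.toLinearMap := by
        rw [Submodule.span_le]
        rintro _ ⟨i, rfl⟩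
        exact hT i
      exact h3
    exact (h1.closure_subset_iff.mpr h2) (dense_dd B y)
  have h1 : ∀ y, UU B y ∈ K := key (UU B) (fun i => hx (Sum.inr i))
  have h2 : ∀ y, (PP B y - SS B (RR B (PP B y))) ∈ K := by
    apply key (PP B - (SS B).comp ((RR B).comp (PP B)))
    rintro ⟨⟨m, k⟩, γ⟩
    set i : Lam2 B := ⟨(m, k), γ⟩ with hi
    change PP B (dd B i) - SS B (RR B (PP B (dd B i))) ∈ K
    have h3 : PP B (dd B i) - SS B (RR B (PP B (dd B i)))
        = ∑ n, (B k).f n (blk B (dd B i) 0 k) • xx B (Sum.inl ⟨k, n⟩) := by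
      apply lp.ext
      apply ext_blk
      intro m' k'
      have h4 : blk B (PP B (dd B i) - SS B (RR B (PP B (dd B i))) : LL (Lam2 B)) m' k'
          = blk B (PP B (dd B i)) m' k' - blk B (SS B (RR B (PP B (dd B i)))) m' k' := rfl
      have h5 : blk B (∑ n, (B k).f n (blk B (dd B i) 0 k) • xx B (Sum.inl ⟨k, n⟩) :
          LL (Lam2 B)) m' k'
          = ∑ n, (B k).f n (blk B (dd B i) 0 k) • blk B (xx B (Sum.inl ⟨k, n⟩)) m' k' := by
        change blkL B m' k' _ = _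
        rw [map_sum]
        simp only [map_smul]
        rfl
      rw [h4, h5]
      cases m' with
      | zero =>
        rw [SS_coe, blk_Sf_zero, sub_zero, PP_coe, blk_Pf]
        by_cases hk : k' = k
        · subst hk
          rw [Pk_eq]
          apply Finset.sum_congr rfl
          intro n _
          congr 1
          exact (blk_emb_same B k' _).symm
        · have h6 : blk B (dd B i) 0 k' = 0 := by
            funext γ'
            change dd B i ⟨(0, k'), γ'⟩ = 0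
            rw [dd_apply, if_neg]
            intro h
            have := (Sigma.mk.inj h).1
            exact hk (Prod.mk.inj this).2
          rw [h6, map_zero]
          symm
          apply Finset.sum_eq_zero
          intro n _
          have h7 : blk B (xx B (Sum.inl ⟨k, n⟩)) 0 k' = 0 :=
            blk_emb_ne B k _ 0 k' (fun h => hk (Prod.mk.inj h).2)
          rw [h7, smul_zero]
      | succ m' =>
        rw [SS_coe, blk_Sf_succ, RR_coe, blk_Rf, sub_self]
        symm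
        apply Finset.sum_eq_zero
        intro n _
        have h7 : blk B (xx B (Sum.inl ⟨k, n⟩)) (m' + 1) k' = 0 :=
          blk_emb_ne B k _ (m' + 1) k' (by simp)
        rw [h7, smul_zero]
    rw [h3]
    exact Submodule.sum_mem _ (fun n _ => Submodule.smul_mem _ _ (hx _))
  intro y
  have h3 : y ∈ K := by
    rw [← UU_VV B y]
    exact Submodule.add_mem _ (h1 _) (h2 _)
  exact h3

theorem norm_dd (i : Lam2 B) : ‖dd B i‖ = 1 := by
  unfold dd
  rw [lp.norm_single]
  · simp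
  · exact lt_trans zero_lt_one p43_one_lt

theorem bounds_all : ∃ M : ℝ, ∀ j, ‖xx B j‖ ≤ M ∧ ‖ff B j‖ ≤ M := by
  refine ⟨114 + ‖UU B‖ + ‖VV B‖, ?_⟩
  have hU := norm_nonneg (UU B)
  have hV := norm_nonneg (VV B)
  rintro (s | i)
  · constructor
    · have h1 : ‖xx B (Sum.inl s)‖ ≤ 114 * 1 := by
        apply le_of_rpow43 (norm_nonneg _) zero_le_one (by norm_num)
        change ‖embL B s.1 ((B s.1).x s.2)‖ ^ (4 / 3 : ℝ) ≤ _
        rw [norm_embL, Real.one_rpow, mul_one]
        exact (B s.1).xb s.2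
      linarith
    · have h1 : ‖ff B (Sum.inl s)‖ ≤ 114 := norm_fz_le B s
      linarith
  · constructor
    · have h1 : ‖xx B (Sum.inr i)‖ ≤ ‖UU B‖ * ‖dd B i‖ := (UU B).le_opNorm _
      rw [norm_dd, mul_one] at h1
      linarith
    · have h1 : ‖ff B (Sum.inr i)‖ ≤ ‖ev B i‖ * ‖VV B‖ := ContinuousLinearMap.opNorm_comp_le _ _
      have h2 := norm_ev_le B i
      nlinarith

/-- sums over the block part of a finite set of indices -/
theorem sum_sigma_part (A : Finset (Σ k, (B k).J)) (c : (Σ k, (B k).J) → ℝ) (m k : ℕ) :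
    blk B (∑ s ∈ A, c s • embL B s.1 ((B s.1).x s.2) : LL (Lam2 B)) m k
      = if m = 0 then fun γ => ∑ n ∈ Finset.univ.filter (fun n => (⟨k, n⟩ : Σ k, (B k).J) ∈ A),
          c ⟨k, n⟩ * (B k).x n γ else 0 := by
  have h5 : blk B (∑ s ∈ A, c s • embL B s.1 ((B s.1).x s.2) : LL (Lam2 B)) m k
      = ∑ s ∈ A, c s • blk B (embL B s.1 ((B s.1).x s.2)) m k := by
    change blkL B m k _ = _
    rw [map_sum]
    simp only [map_smul]
    rfl
  rw [h5]
  split_ifs with hm
  · subst hm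
    have h6 : ∑ s ∈ (Finset.univ.filter (fun n => (⟨k, n⟩ : Σ k, (B k).J) ∈ A)).map
        (Function.Embedding.sigmaMk k), c s • blk B (embL B s.1 ((B s.1).x s.2)) 0 k
        = ∑ s ∈ A, c s • blk B (embL B s.1 ((B s.1).x s.2)) 0 k := by
      apply Finset.sum_subset
      · intro s hs
        rw [Finset.mem_map] at hs
        obtain ⟨n, hn, rfl⟩ := hs
        rw [Finset.mem_filter] at hn
        exact hn.2
      · intro s hs hs'
        have hne : s.1 ≠ k := by
          rintro rfl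
          apply hs'
          rw [Finset.mem_map]
          exact ⟨s.2, Finset.mem_filter.mpr ⟨Finset.mem_univ _, hs⟩, rfl⟩
        rw [embL_coe, blk_emb_ne, smul_zero]
        intro h
        exact hne (Prod.mk.inj h).2.symm
    rw [← h6, Finset.sum_map]
    funext γ
    rw [Finset.sum_apply]
    apply Finset.sum_congr rfl
    intro n _
    have h7 : blk B (embL B k ((B k).x n)) 0 k = (B k).x n := blk_emb_same B k _
    change (c ⟨k, n⟩ • blk B (embL B k ((B k).x n)) 0 k) γ = _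
    rw [h7]
    rfl
  · apply Finset.sum_eq_zero
    intro s _
    rw [embL_coe, blk_emb_ne, smul_zero]
    intro h
    exact hm (Prod.mk.inj h).1

theorem qg_all : ∃ C : ℝ, ∀ (y : LL (Lam2 B)) (A : Finset (JJ B)),
    (∀ n ∈ A, ∀ k ∉ A, |ff B k y| ≤ |ff B n y|) →
      ‖∑ n ∈ A, ff B n y • xx B n‖ ≤ C * ‖y‖ := by
  classical
  refine ⟨114 + ‖UU B‖ * ‖VV B‖, ?_⟩
  intro y A hA
  set A1 : Finset (Σ k, (B k).J) := A.preimage Sum.inl Sum.inl_injective.injOn with hA1
  set A2 : Finset (Lam2 B) := A.preimage Sum.inr Sum.inr_injective.injOn with hA2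
  have hm1 : ∀ s, s ∈ A1 ↔ Sum.inl s ∈ A := fun s => Finset.mem_preimage
  have hm2 : ∀ i, i ∈ A2 ↔ Sum.inr i ∈ A := fun s => Finset.mem_preimage
  have hAeq : A = A1.disjSum A2 := by
    ext j
    rcases j with s | i
    · rw [Finset.inl_mem_disjSum, hm1]
    · rw [Finset.inr_mem_disjSum, hm2]
  have hsum : ∑ n ∈ A, ff B n y • xx B n
      = (∑ s ∈ A1, ff B (Sum.inl s) y • embL B s.1 ((B s.1).x s.2))
        + UU B (∑ i ∈ A2, (VV B y i) • dd B i) := by
    rw [hAeq, Finset.sum_disjSum, map_sum]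
    congr 1
    apply Finset.sum_congr rfl
    intro i _
    rw [map_smul]
    rfl
  rw [hsum]
  refine le_trans (norm_add_le _ _) ?_
  rw [add_mul]
  apply add_le_add
  · -- block part
    apply le_of_rpow43 (norm_nonneg _) (norm_nonneg _) (by norm_num)
    rw [LL.norm_pow, LL.norm_pow, tsum_blocks B _ (LL.summable _), tsum_blocks B _ (LL.summable _),
      ← tsum_mul_left]
    have hle : ∀ b : ℕ × ℕ, nrm (blk B (∑ s ∈ A1, ff B (Sum.inl s) y • embL B s.1 ((B s.1).x s.2) :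
        LL (Lam2 B)) b.1 b.2) ≤ 114 * nrm (blk B y b.1 b.2) := by
      rintro ⟨m, k⟩
      simp only
      rw [sum_sigma_part]
      split_ifs with hm
      · subst hm
        exact (B k).qg (blk B y 0 k) _ (fun n hn k' hk' => by
          rw [Finset.mem_filter] at hn hk'
          have h1 := hA (Sum.inl ⟨k, n⟩) ((hm1 _).mp hn.2) (Sum.inl ⟨k, k'⟩)
            (fun h => hk' ⟨Finset.mem_univ _, (hm1 _).mpr h⟩)
          exact h1)
      · rw [nrm_zero']
        have := nrm_nonneg (blk B y m k)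
        positivity
    exact ((summable_blocks B _).mp (LL.summable _)).tsum_le_tsum hle
      (((summable_blocks B _).mp (LL.summable y)).mul_left 114)
  · refine le_trans ((UU B).le_opNorm _) ?_
    rw [mul_assoc]
    apply mul_le_mul_of_nonneg_left _ (norm_nonneg _)
    refine le_trans ?_ ((VV B).le_opNorm y)
    -- contractive projection on coordinates
    have h1 := lp.norm_sum_single (E := fun _ : Lam2 B => ℝ) (p := p43)
      (by rw [p43_toReal]; norm_num) (fun i => VV B y i) A2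
    have h2 := lp.sum_rpow_le_norm_rpow (E := fun _ : Lam2 B => ℝ) (p := p43)
      (by rw [p43_toReal]; norm_num) (VV B y) A2
    have h3 : ∑ i ∈ A2, (VV B y i) • dd B i = ∑ i ∈ A2, lp.single p43 i (VV B y i) := by
      apply Finset.sum_congr rfl
      intro i _
      unfold dd
      rw [← lp.single_smul, smul_eq_mul, mul_one]
    rw [h3]
    rw [← h1, p43_toReal] at h2
    exact (Real.rpow_le_rpow_iff (norm_nonneg _) (norm_nonneg _) (by norm_num)).mp h2

/-- the functional on the sum induced by a functional on a block -/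
theorem exists_ext (k : ℕ) (g : ((B k).G → ℝ) →ₗ[ℝ] ℝ) (b : ℝ) (hb : 0 ≤ b)
    (hg : ∀ w, |g w| ^ 4 ≤ b * nrm w ^ 3) :
    ∃ G : LL (Lam2 B) →L[ℝ] ℝ, (∀ y, G y = g (Pk B k (blk B y 0 k))) ∧
      ‖G‖ ^ 4 ≤ b * 114 ^ 3 := by
  set c : ℝ := (b * 114 ^ 3) ^ (1 / 4 : ℝ) with hc
  have hc0 : 0 ≤ c := by positivity
  have hc4 : c ^ 4 = b * 114 ^ 3 := by
    rw [hc, ← Real.rpow_natCast, ← Real.rpow_mul (by positivity)]
    norm_num
  let L : LL (Lam2 B) →ₗ[ℝ] ℝ := g.comp ((Pk B k).comp (blkL B 0 k))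
  have hL : ∀ y, ‖L y‖ ≤ c * ‖y‖ := by
    intro y
    have h1 : |L y| ^ 4 ≤ (c * ‖y‖) ^ 4 := by
      have h2 : |L y| ^ 4 ≤ b * nrm (Pk B k (blk B y 0 k)) ^ 3 := hg _
      have h3 : nrm (Pk B k (blk B y 0 k)) ^ 3 ≤ (114 * ‖y‖ ^ (4 / 3 : ℝ)) ^ 3 := by
        apply pow_le_pow_left₀ (nrm_nonneg _)
        refine le_trans (nrm_Pk_le B k _) ?_
        exact mul_le_mul_of_nonneg_left (nrm_blk_le B y 0 k) (by norm_num)
      have h4 : (‖y‖ ^ (4 / 3 : ℝ)) ^ 3 = ‖y‖ ^ 4 := by
        rw [← Real.rpow_natCast, ← Real.rpow_mul (norm_nonneg _)]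
        norm_num
      rw [mul_pow, h4] at h3
      rw [mul_pow, hc4]
      calc |L y| ^ 4 ≤ b * nrm (Pk B k (blk B y 0 k)) ^ 3 := h2
        _ ≤ b * (114 ^ 3 * ‖y‖ ^ 4) := mul_le_mul_of_nonneg_left h3 hb
        _ = b * 114 ^ 3 * ‖y‖ ^ 4 := by ring
    rw [Real.norm_eq_abs]
    exact le_of_pow_le_pow_left₀ (by norm_num) (by positivity) h1
  refine ⟨L.mkContinuous c hL, fun y => rfl, ?_⟩
  rw [← hc4]
  exact pow_le_pow_left₀ (norm_nonneg _) (L.mkContinuous_norm_le hc0 hL) 4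

theorem dual_bad : ¬ ∃ C : ℝ, ∀ (g : LL (Lam2 B) →L[ℝ] ℝ) (A : Finset (JJ B)),
    (∀ n ∈ A, ∀ k ∉ A, |g (xx B k)| ≤ |g (xx B n)|) →
      ‖∑ n ∈ A, g (xx B n) • ff B n‖ ≤ C * ‖g‖ := by
  classical
  rintro ⟨C, hC⟩
  obtain ⟨k, hk⟩ := exists_nat_ge (C ^ 4 * 114 ^ 3)
  obtain ⟨g, b, A, w, hb, hg, hA, hbad⟩ := (B k).bad
  obtain ⟨G, hG, hGn⟩ := exists_ext B k g b hb hg
  set e : (B k).J → JJ B := fun n => Sum.inl ⟨k, n⟩ with he
  have heinj : Function.Injective e := by
    intro a a' h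
    exact eq_of_heq (Sigma.mk.inj (Sum.inl.inj h)).2
  have hGx : ∀ n, G (xx B (e n)) = g ((B k).x n) := by
    intro n
    rw [hG]
    change g (Pk B k (blk B (emb B k ((B k).x n)) 0 k)) = _
    rw [blk_emb_same, Pk_x]
  have hG0 : ∀ j, (∀ n, j ≠ e n) → G (xx B j) = 0 := by
    intro j hj
    rw [hG]
    rcases j with ⟨k', n'⟩ | i
    · have hk' : k' ≠ k := by
        rintro rfl
        exact hj n' rfl
      change g (Pk B k (blk B (emb B k' ((B k').x n')) 0 k)) = _
      rw [blk_emb_ne, map_zero, map_zero]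
      intro h
      exact hk' (Prod.mk.inj h).2.symm
    · change g (Pk B k (blk B (UU B (dd B i)) 0 k)) = 0
      rw [blk0_UU, map_sub, Pk_idem, sub_self, map_zero]
  have hgreedy : ∀ n ∈ A.image e, ∀ j ∉ A.image e, |G (xx B j)| ≤ |G (xx B n)| := by
    intro n hn j hj
    rw [Finset.mem_image] at hn
    obtain ⟨a, ha, rfl⟩ := hn
    by_cases h : ∃ a', j = e a'
    · obtain ⟨a', rfl⟩ := h
      rw [hGx, hGx]
      apply hA a ha a'
      intro ha'
      exact hj (Finset.mem_image_of_mem e ha')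
    · push Not at h
      rw [hG0 j h, abs_zero]
      exact abs_nonneg _
  have h1 := hC G (A.image e) hgreedy
  rw [Finset.sum_image (fun a _ a' _ h => heinj h)] at h1
  have h2 := (∑ n ∈ A, G (xx B (e n)) • ff B (e n)).le_opNorm (embL B k w)
  have h3 : (∑ n ∈ A, G (xx B (e n)) • ff B (e n)) (embL B k w)
      = ∑ n ∈ A, g ((B k).x n) * (B k).f n w := by
    rw [ContinuousLinearMap.sum_apply]
    apply Finset.sum_congr rfl
    intro n _
    rw [ContinuousLinearMap.smul_apply, hGx, smul_eq_mul]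
    congr 1
    change (B k).f n (blk B (emb B k w) 0 k) = _
    rw [blk_emb_same]
  rw [h3, Real.norm_eq_abs] at h2
  have h4 : |∑ n ∈ A, g ((B k).x n) * (B k).f n w| ≤ (C * ‖G‖) * ‖embL B k w‖ :=
    le_trans h2 (mul_le_mul_of_nonneg_right h1 (norm_nonneg _))
  have h5 := pow_le_pow_left₀ (abs_nonneg _) h4 4
  have h6 : ‖embL B k w‖ ^ 4 = nrm w ^ 3 := by
    rw [← norm_embL B k w, ← Real.rpow_natCast (_ ^ (4 / 3 : ℝ)), ← Real.rpow_mul (norm_nonneg _)]
    norm_num
  rw [mul_pow, mul_pow, h6] at h5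
  have h7 : 0 ≤ nrm w ^ 3 := pow_nonneg (nrm_nonneg w) 3
  have h8 : C ^ 4 * ‖G‖ ^ 4 * nrm w ^ 3 ≤ (k : ℝ) * b * nrm w ^ 3 := by
    apply mul_le_mul_of_nonneg_right _ h7
    calc C ^ 4 * ‖G‖ ^ 4 ≤ C ^ 4 * (b * 114 ^ 3) :=
          mul_le_mul_of_nonneg_left hGn (by positivity)
      _ = (C ^ 4 * 114 ^ 3) * b := by ring
      _ ≤ k * b := mul_le_mul_of_nonneg_right hk hb
  linarith

instance (k : ℕ) : Nonempty (B k).G := by
  by_contra hcon
  rw [not_nonempty_iff] at hcon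
  obtain ⟨g, b, A, w, hb, hg, hA, hbad⟩ := (B k).bad
  have hw : w = 0 := Subsingleton.elim _ _
  have h1 : ∑ n ∈ A, g ((B k).x n) * (B k).f n w = 0 := by
    apply Finset.sum_eq_zero
    intro n _
    rw [hw, map_zero, mul_zero]
  rw [h1, hw, nrm_zero'] at hbad
  simp at hbad

instance : Infinite (Lam2 B) := by
  let γ0 : ∀ k, (B k).G := fun k => Classical.arbitrary _
  apply Infinite.of_injective (fun m : ℕ => (⟨(m, 0), γ0 0⟩ : Lam2 B))
  intro a a' h
  have := (Sigma.mk.inj h).1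
  exact (Prod.mk.inj this).1

end Basis

/-- the reindexing operator -/
theorem good_reindex {α β : Type} (e : β ≃ α) : Good (LinearMap.funLeft ℝ ℝ e) 1 := by
  intro g hg
  constructor
  · exact (e.summable_iff (f := fun i => |g i| ^ (4 / 3 : ℝ))).mpr hg
  · rw [one_mul]
    exact le_of_eq (e.tsum_eq (fun i => |g i| ^ (4 / 3 : ℝ)))

noncomputable def reix {α β : Type} (e : β ≃ α) : LL α →L[ℝ] LL β :=
  toCLM (LinearMap.funLeft ℝ ℝ e) 1 zero_le_one (good_reindex e)

theorem reix_apply {α β : Type} (e : β ≃ α) (y : LL α) (i : β) : reix e y i = y (e i) := rfl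

theorem reix_reix {α β : Type} (e : β ≃ α) (y : LL α) : reix e.symm (reix e y) = y := by
  apply lp.ext
  funext i
  rw [reix_apply, reix_apply, Equiv.apply_symm_apply]

theorem reix_norm {α β : Type} (e : β ≃ α) (y : LL α) : ‖reix e y‖ = ‖y‖ := by
  have h1 : ‖reix e y‖ ^ (4 / 3 : ℝ) = ‖y‖ ^ (4 / 3 : ℝ) := by
    rw [LL.norm_pow, LL.norm_pow]
    exact e.tsum_eq (fun i => |y i| ^ (4 / 3 : ℝ))
  exact (Real.rpow_left_inj (norm_nonneg _) (norm_nonneg _) (by norm_num)).mp h1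

/-- The main result. -/
theorem main : ∃ (x : ℕ → LL ℕ) (f : ℕ → (LL ℕ →L[ℝ] ℝ)),
    (∀ m n : ℕ, f m (x n) = if m = n then 1 else 0) ∧
    Dense (Submodule.span ℝ (Set.range x) : Set (LL ℕ)) ∧
    (∃ M : ℝ, ∀ n : ℕ, ‖x n‖ ≤ M ∧ ‖f n‖ ≤ M) ∧
    (∃ C : ℝ, ∀ (y : LL ℕ) (A : Finset ℕ), (∀ n ∈ A, ∀ k ∉ A, |f k y| ≤ |f n y|) →
        ‖∑ n ∈ A, f n y • x n‖ ≤ C * ‖y‖) ∧
    ¬ (∃ C : ℝ, ∀ (g : LL ℕ →L[ℝ] ℝ) (A : Finset ℕ),
        (∀ n ∈ A, ∀ k ∉ A, |g (x k)| ≤ |g (x n)|) →
        ‖∑ n ∈ A, g (x n) • f n‖ ≤ C * ‖g‖) := by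
  classical
  have hB : ∀ k : ℕ, Nonempty (Block 114 (k : ℝ)) := fun k => exists_block k
  let B : ∀ k : ℕ, Block 114 (k : ℝ) := fun k => Classical.choice (hB k)
  obtain ⟨e⟩ : Nonempty (ℕ ≃ Lam2 B) := nonempty_equiv_of_countable
  obtain ⟨σ⟩ : Nonempty (ℕ ≃ JJ B) := nonempty_equiv_of_countable
  let E : LL (Lam2 B) →L[ℝ] LL ℕ := reix e
  let E' : LL ℕ →L[ℝ] LL (Lam2 B) := reix e.symm
  have hE'E : ∀ y, E' (E y) = y := fun y => reix_reix e y
  have hEE' : ∀ y, E (E' y) = y := fun y => reix_reix e.symm y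
  have hEn : ∀ y, ‖E y‖ = ‖y‖ := reix_norm e
  have hE'n : ∀ y, ‖E' y‖ = ‖y‖ := reix_norm e.symm
  have hcompn : ∀ G : LL (Lam2 B) →L[ℝ] ℝ, ‖G.comp E'‖ ≤ ‖G‖ := by
    intro G
    apply ContinuousLinearMap.opNorm_le_bound _ (norm_nonneg _)
    intro y
    rw [ContinuousLinearMap.comp_apply, ← hE'n y]
    exact G.le_opNorm _
  have hcompn' : ∀ G : LL ℕ →L[ℝ] ℝ, ‖G.comp E‖ ≤ ‖G‖ := by
    intro G
    apply ContinuousLinearMap.opNorm_le_bound _ (norm_nonneg _)
    intro y
    rw [ContinuousLinearMap.comp_apply, ← hEn y]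
    exact G.le_opNorm _
  refine ⟨fun n => E (xx B (σ n)), fun n => (ff B (σ n)).comp E', ?_, ?_, ?_, ?_, ?_⟩
  · intro m n
    rw [ContinuousLinearMap.comp_apply, hE'E, biorth_all]
    simp
  · -- density
    have h1 : ∀ y ∈ Submodule.span ℝ (Set.range (xx B)),
        E y ∈ Submodule.span ℝ (Set.range (fun n => E (xx B (σ n)))) := by
      intro y hy
      have h2 : Submodule.span ℝ (Set.range (xx B))
          ≤ (Submodule.span ℝ (Set.range (fun n => E (xx B (σ n))))).comap E.toLinearMap := by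
        rw [Submodule.span_le]
        rintro _ ⟨j, rfl⟩
        apply Submodule.subset_span
        refine ⟨σ.symm j, ?_⟩
        simp
      exact h2 hy
    intro z
    have h3 := dense_all B (E' z)
    have h4 : E (E' z) ∈ closure (E '' (Submodule.span ℝ (Set.range (xx B)) :
        Set (LL (Lam2 B)))) := image_closure_subset_closure_image E.continuous ⟨_, h3, rfl⟩
    rw [hEE'] at h4
    refine closure_mono ?_ h4
    rintro _ ⟨y, hy, rfl⟩
    exact h1 y hy
  · obtain ⟨M, hM⟩ := bounds_all B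
    refine ⟨M, fun n => ⟨?_, ?_⟩⟩
    · rw [hEn]; exact (hM _).1
    · exact le_trans (hcompn _) (hM _).2
  · obtain ⟨C, hC⟩ := qg_all B
    refine ⟨C, fun y A hA => ?_⟩
    have h1 := hC (E' y) (A.map σ.toEmbedding) (by
      intro n hn k hk
      rw [Finset.mem_map] at hn
      obtain ⟨a, ha, rfl⟩ := hn
      obtain ⟨k', rfl⟩ := σ.surjective k
      apply hA a ha k'
      intro hk'
      exact hk (Finset.mem_map_of_mem _ hk'))
    rw [Finset.sum_map, hE'n] at h1
    refine le_trans (le_of_eq ?_) h1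
    rw [← hEn, map_sum]
    simp only [map_smul]
    rfl
  · rintro ⟨C, hC⟩
    apply dual_bad B
    refine ⟨|C|, fun G A hA => ?_⟩
    have h1 := hC (G.comp E') (A.map σ.symm.toEmbedding) (by
      intro n hn k hk
      rw [Finset.mem_map] at hn
      obtain ⟨a, ha, rfl⟩ := hn
      rw [ContinuousLinearMap.comp_apply, ContinuousLinearMap.comp_apply, hE'E, hE'E]
      have h2 : σ k ∉ A := by
        intro h3
        apply hk
        rw [Finset.mem_map]
        exact ⟨σ k, h3, by simp⟩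
      have h3 := hA a ha (σ k) h2
      simpa using h3)
    have h2 : ∑ n ∈ A.map σ.symm.toEmbedding, (G.comp E') (E (xx B (σ n))) • (ff B (σ n)).comp E'
        = (∑ n ∈ A, G (xx B n) • ff B n).comp E' := by
      rw [Finset.sum_map]
      apply ContinuousLinearMap.ext
      intro y
      rw [ContinuousLinearMap.comp_apply, ContinuousLinearMap.sum_apply,
        ContinuousLinearMap.sum_apply]
      apply Finset.sum_congr rfl
      intro n _
      rw [ContinuousLinearMap.smul_apply, ContinuousLinearMap.smul_apply,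
        ContinuousLinearMap.comp_apply, ContinuousLinearMap.comp_apply, hE'E]
      simp
    rw [h2] at h1
    have h3 : ∑ n ∈ A, G (xx B n) • ff B n = ((∑ n ∈ A, G (xx B n) • ff B n).comp E').comp E := by
      apply ContinuousLinearMap.ext
      intro y
      rw [ContinuousLinearMap.comp_apply, ContinuousLinearMap.comp_apply, hE'E]
    rw [h3]
    refine le_trans (hcompn' _) (le_trans h1 ?_)
    calc C * ‖G.comp E'‖ ≤ |C| * ‖G.comp E'‖ :=
          mul_le_mul_of_nonneg_right (le_abs_self C) (norm_nonneg _)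
      _ ≤ |C| * ‖G‖ := mul_le_mul_of_nonneg_left (hcompn G) (abs_nonneg C)

end Pool.Agent.Lib.Pec23a5
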